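/-!
# Certificate checker: computational part

Linear forms in the 24 variables `v j i`, `w j 6` (index `8 * j + i`, `8 * j + 7`) plus a constant
(index 24) and a counter (index 25) are packed into pairs of natural numbers (positive and negative
part) in base `2 ^ 64`, scaled by 360; `200 = 360 * 5/9`.
-/

namespace Pool.Agent.H785R2.ABC.Cert

noncomputable section

/-- pairs (positive part, negative part) -/
abbrev P2 := Nat × Nat

/-- spread the 7 bits of `m` to base `2 ^ 64` digits -/
def costN (m : Nat) : Nat := Nat.land (m * 615656346818663737758609596437272405786452359996153369982784425044951131076882884359026004833575784530768499310593) 39402006196394479214415027136064523887590553065872314977980846013346449130061698275692255149584597951633472719159297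

/-- weights: digit `i < 6` is `(i+1) * bit i`, digit 7 is bit 6 -/
def wtN (m : Nat) : Nat :=
  Nat.land (m * 615656346818663737758609596437272405786452359996153369982784425044951131076882884359026004833575784530768499310593) 115792089237316195423570985008687907853610267032561502502920958615344897851393 + 2 * Nat.land (m * 615656346818663737758609596437272405786452359996153369982784425044951131076882884359026004833575784530768499310593) 2135987035920910082395021706169552114602704522356652769947381890189140664244122371374467564699648 + 4 * Nat.land (m * 615656346818663737758609596437272405786452359996153369982784425044951131076882884359026004833575784530768499310593) 2135987035920910082510813795406868310032552609100727358564147381911067956236200489475339251089408 +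
    m / 64 * 726838724295606890549323807888004534353641360687318060281490199180639288113397923326191050713763565560762521606266177933534601628614656

def ad (a b : P2) : P2 := (a.1 + b.1, a.2 + b.2)

def costP (c j m : Nat) : P2 := (c * (2 ^ (512 * j) * costN m), 0)
def wtP (c j m : Nat) : P2 := (c * (2 ^ (512 * j) * wtN m), 0)
def wtM (c j m : Nat) : P2 := (0, c * (2 ^ (512 * j) * wtN m))
def costM (c j m : Nat) : P2 := (0, c * (2 ^ (512 * j) * costN m))
def cP (c : Nat) : P2 := (c * 2 ^ 1536, 0)
def cM (c : Nat) : P2 := (0, c * 2 ^ 1536)
/-- `-200` and the counter -/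
def tM : P2 := (0, 200 * 2 ^ 1536 + 2 ^ 1600)
def thinV (r c : Nat) : P2 := cond (Nat.beq r 0) (ad (wtP c 0 127) (cM c)) (0, 0)

/-- good mask of `k` -/
def gm (k : Nat) : Nat := 141289467854720 / 128 ^ k % 128

def piecesM (r p q k Sp Sq F : Nat) : List P2 :=
  let c0 := ad tM (ad (costP 360 r F) (ad (costP 360 p (127 - Sp)) (costP 360 q (127 - Sq))))
  [c0, ad c0 (ad (wtP (360 / k) p Sp) (ad (wtP (360 / k) q Sq) (ad (wtM 360 r F) (thinV r 360))))]

def areaV (r F j d c S : Nat) : P2 := ad (wtP d j S) (ad (wtM c r F) (thinV r c))

/-- option `one` -/
def optOne (r F j k μ S : Nat) : List P2 :=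
  let b := ad (costP 360 j (127 - S))
    (ad (wtP (180 / μ) (cond (Nat.beq r 0) 0 j) 127) (wtM (180 / μ) r F))
  [b, ad b (areaV r F j (360 / k) 180 S)]

/-- option `two` -/
def optTwo (r F j k₁ S₁ k₂ S₂ : Nat) : List P2 :=
  let b := ad (costP 180 j (127 - S₁)) (costP 180 j (127 - S₂))
  let a₁ := areaV r F j (180 / k₁) 90 S₁
  let a₂ := areaV r F j (180 / k₂) 90 S₂
  [b, ad b a₁, ad b a₂, ad (ad b a₁) a₂]

/-- option from raw code `t, x, S, y, S'` -/
def optP (r F j t x S y S' : Nat) : List P2 :=
  cond (Nat.beq t 0) [costP 360 j 127]
    (cond (Nat.beq t 1)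
      (optOne r F j (x % 6 + 1) (y % 6 + 1)
        (Nat.land (S / 2 ^ (y % 6) * 2 ^ (y % 6)) (gm (x % 6 + 1))))
      (optTwo r F j (x % 6 + 1) (Nat.land S (gm (x % 6 + 1))) (y % 6 + 1)
        (Nat.land (Nat.land S' (gm (y % 6 + 1))) (127 - Nat.land S (gm (x % 6 + 1))))))

def mapC (f : P2 → P2) (l : List P2) (tl : List P2) : List P2 :=
  List.rec tl (fun x _ ih => f x :: ih) l

def piecesE (r p q F : Nat) (OP OQ : List P2) : List P2 :=
  let CR := ad tM (costP 360 r F)
  (ad CR (costP 360 q 127)) :: mapC (fun a => ad (ad CR a) (costP 180 q 127)) OP
    (List.rec [] (fun a _ ih => mapC (fun b => ad (ad CR a) b) OQ ih) OP)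

def pushAll (path : List P2) (l : List P2) (st : List (List P2)) : List (List P2) :=
  List.rec st (fun x _ ih => (x :: path) :: ih) l

/-- base constraints, as nonnegative forms scaled by 360 -/
def baseL : List P2 :=
  [ad (cP 360) (ad (costM 360 0 127) (ad (costM 360 1 127) (costM 360 2 127))),
   ad (cP 360) (wtM 360 0 127),
   ad (cP 360) (wtM 360 1 127),
   ad (cM 360) (wtP 360 1 127),
   ad (cP 360) (wtM 360 2 127),
   ad (cM 360) (wtP 360 2 127),
   ad (costM 2520 0 64) (wtP 360 0 64),
   ad (costM 2520 1 64) (wtP 360 1 64),
   ad (costM 2520 2 64) (wtP 360 2 64),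
   ad (costP 360 1 127) (costM 360 2 127)]

/-- read one multiplier (bit 0: zero, bit 1 followed by 26 bits) for every element of the list -/
def pathSum (l : List P2) : Nat → Nat → Nat → (Nat → Nat → Nat → Bool) → Bool :=
  List.rec (motive := fun _ => Nat → Nat → Nat → (Nat → Nat → Nat → Bool) → Bool)
    (fun z a b k => k z a b)
    (fun x _ ih z a b k => cond (Nat.beq (z % 2) 0) (ih (z / 2) a b k)
      (ih (z / 134217728) (a + z / 2 % 67108864 * x.1) (b + z / 2 % 67108864 * x.2) k)) l

/-- final test of a leaf -/
def leafOK (t : Nat) : Bool :=
  Nat.ble 44462416477094044620016814065517364315819234512137839319418223093753683069769152238984782576173969417485953521141049383745107056455283979316385016701612810119562585078620415976730705698345087039035930761275083827265405596065418173652685035788898113991627042329246850314029877161622487411877779578892097029690461532001915311366862468942148892205997883828265721290296220249202674740669814705818564765009960300389641843321936008416473775144511929246788246559538970957296160626364645376 t && Nat.beq (Nat.land t 410093408825820243682471112422314277430603333297482201570502425291690999953162569009279406651634712714171935173747159962171154192727336616869540971717551098300349734075435152088572096128430108377112718187752526337773991705240405696668722134648658812284966416060711179086147216635840832630402097343254318301675270241505622288705096698725295797868891547783986547596035847023355056721418766576537585315036987001780097052769926066088937108011417696599106917216389567357995966960705198406118541236799275008)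 0

def pairEq (x y : P2) : Bool := Nat.beq x.1 y.1 && Nat.beq x.2 y.2

/-- equality of two lists of pairs -/
def listEq (l : List P2) : List P2 → Bool :=
  List.rec (motive := fun _ => List P2 → Bool)
    (fun l' => List.rec (motive := fun _ => Bool) true (fun _ _ _ => false) l')
    (fun x _ ih l' => List.rec (motive := fun _ => Bool) false (fun y ys _ => pairEq x y && ih ys) l') l

/-- pieces of the `M` bound coded by `z` -/
def codeM (z : Nat) : List P2 :=
  piecesM (z % 4 % 3) ((z % 4 + 1) % 3) ((z % 4 + 2) % 3) (z / 4 % 8 % 6 + 1)
    (Nat.land (z / 32 % 128) (gm (z / 4 % 8 % 6 + 1)))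
    (Nat.land (z / 4096 % 128) (gm (z / 4 % 8 % 6 + 1))) (z / 524288 % 128)

/-- pieces of the `E` bound coded by `z` -/
def codeE (z : Nat) : List P2 :=
  let r := z % 4 % 3
  let p := (z % 4 + 1 + z / 4 % 2) % 3
  let q := (z % 4 + 2 + 2 * (z / 4 % 2)) % 3
  let F := z / 8 % 128
  piecesE r p q F
    (optP r F p (z / 2 ^ 10 % 4) (z / 2 ^ 12 % 8) (z / 2 ^ 15 % 128) (z / 2 ^ 22 % 8) (z / 2 ^ 25 % 128))
    (optP r F q (z / 2 ^ 32 % 4) (z / 2 ^ 34 % 8) (z / 2 ^ 37 % 128) (z / 2 ^ 44 % 8) (z / 2 ^ 47 % 128))

/-- the checker: fuel, current chunk, further chunks, known closed paths, stack of open paths -/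
def run (n : Nat) : Nat → List Nat → List (List P2) → List (List P2) → Bool :=
  Nat.rec (motive := fun _ => Nat → List Nat → List (List P2) → List (List P2) → Bool)
    (fun _ _ _ _ => false)
    (fun _ ih z zs kn st =>
      List.rec (motive := fun _ => Bool) true (fun path st _ =>
        cond (Nat.beq (z % 8) 3)
          (pathSum path (z / 8) 0 0 fun z a b => pathSum baseL z a b fun z a b =>
            leafOK (b - a) && ih z zs kn st)
        (cond (Nat.beq (z % 8) 1)
          (ih (z / 2 ^ 29) zs kn (pushAll path (codeM (z / 8)) st))
        (cond (Nat.beq (z % 8) 2)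
          (ih (z / 2 ^ 57) zs kn (pushAll path (codeE (z / 8)) st))
        (cond (Nat.beq (z % 8) 4)
          (List.rec (motive := fun _ => Bool) false
            (fun p ps _ => listEq path p && ih (z / 8) zs ps st) kn)
          (List.rec (motive := fun _ => Bool) false
            (fun z' zs' _ => ih z' zs' kn (path :: st)) zs))))) st) n

/-- element `n` of a list -/
def nth (l : List P2) : Nat → P2 :=
  List.rec (motive := fun _ => Nat → P2) (fun _ => (0, 0))
    (fun x _ ih n => Nat.rec (motive := fun _ => P2) x (fun m _ => ih m) n) l

/-- path described by codes: `code = idx + 32 * (opcode + 8 * z)` -/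
def mkPath (l : List Nat) : List P2 :=
  List.rec (motive := fun _ => List P2) []
    (fun c _ ih => nth (cond (Nat.beq (c / 32 % 8) 1) (codeM (c / 256)) (codeE (c / 256))) (c % 32) :: ih) l

end

end Pool.Agent.H785R2.ABC.Cert
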