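import Pool.Agent.H785R2.ABC.Cert.Sound5
import Pool.Agent.H785R2.ABC.Cert.Top

/-!
# The certificate: `StmtCert 6 1 (5 / 9)`
-/

namespace Pool.Agent.H785R2.ABC

open Finset

namespace Cert

variable {v w : Fin 3 → Fin 7 → ℝ}

theorem known_sound {δ : ℝ} (hδ : 0 ≤ δ) (hP : Poly 6 1 δ v w)
    (hord : cost v 2 univ ≤ cost v 1 univ)
    (hcon : ∀ b : Bnd 6, b.Valid → ∃ x ∈ b.pieces v w, 5 / 9 + 10 * 2 ^ 26 * δ < x) :
    ∀ p ∈ known, ¬ ∀ x ∈ p, Sat v w δ x := by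
  unfold known
  refine List.forall_mem_cons.2 ⟨key_known hδ hP hord hcon r000 (Nat.le_of_ble_eq_true rfl), ?_⟩
  refine List.forall_mem_cons.2 ⟨key_known hδ hP hord hcon r001 (Nat.le_of_ble_eq_true rfl), ?_⟩
  refine List.forall_mem_cons.2 ⟨key_known hδ hP hord hcon r002 (Nat.le_of_ble_eq_true rfl), ?_⟩
  refine List.forall_mem_cons.2 ⟨key_known hδ hP hord hcon r003 (Nat.le_of_ble_eq_true rfl), ?_⟩
  refine List.forall_mem_cons.2 ⟨key_known hδ hP hord hcon r004 (Nat.le_of_ble_eq_true rfl), ?_⟩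
  refine List.forall_mem_cons.2 ⟨key_known hδ hP hord hcon r005 (Nat.le_of_ble_eq_true rfl), ?_⟩
  refine List.forall_mem_cons.2 ⟨key_known hδ hP hord hcon r006 (Nat.le_of_ble_eq_true rfl), ?_⟩
  refine List.forall_mem_cons.2 ⟨key_known hδ hP hord hcon r007 (Nat.le_of_ble_eq_true rfl), ?_⟩
  refine List.forall_mem_cons.2 ⟨key_known hδ hP hord hcon r008 (Nat.le_of_ble_eq_true rfl), ?_⟩
  refine List.forall_mem_cons.2 ⟨key_known hδ hP hord hcon r009 (Nat.le_of_ble_eq_true rfl), ?_⟩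
  refine List.forall_mem_cons.2 ⟨key_known hδ hP hord hcon r010 (Nat.le_of_ble_eq_true rfl), ?_⟩
  refine List.forall_mem_cons.2 ⟨key_known hδ hP hord hcon r011 (Nat.le_of_ble_eq_true rfl), ?_⟩
  refine List.forall_mem_cons.2 ⟨key_known hδ hP hord hcon r012 (Nat.le_of_ble_eq_true rfl), ?_⟩
  refine List.forall_mem_cons.2 ⟨key_known hδ hP hord hcon r013 (Nat.le_of_ble_eq_true rfl), ?_⟩
  refine List.forall_mem_cons.2 ⟨key_known hδ hP hord hcon r014 (Nat.le_of_ble_eq_true rfl), ?_⟩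
  refine List.forall_mem_cons.2 ⟨key_known hδ hP hord hcon r015 (Nat.le_of_ble_eq_true rfl), ?_⟩
  refine List.forall_mem_cons.2 ⟨key_known hδ hP hord hcon r016 (Nat.le_of_ble_eq_true rfl), ?_⟩
  refine List.forall_mem_cons.2 ⟨key_known hδ hP hord hcon r017 (Nat.le_of_ble_eq_true rfl), ?_⟩
  refine List.forall_mem_cons.2 ⟨key_known hδ hP hord hcon r018 (Nat.le_of_ble_eq_true rfl), ?_⟩
  refine List.forall_mem_cons.2 ⟨key_known hδ hP hord hcon r019 (Nat.le_of_ble_eq_true rfl), ?_⟩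
  refine List.forall_mem_cons.2 ⟨key_known hδ hP hord hcon r020 (Nat.le_of_ble_eq_true rfl), ?_⟩
  refine List.forall_mem_cons.2 ⟨key_known hδ hP hord hcon r021 (Nat.le_of_ble_eq_true rfl), ?_⟩
  refine List.forall_mem_cons.2 ⟨key_known hδ hP hord hcon r022 (Nat.le_of_ble_eq_true rfl), ?_⟩
  refine List.forall_mem_cons.2 ⟨key_known hδ hP hord hcon r023 (Nat.le_of_ble_eq_true rfl), ?_⟩
  refine List.forall_mem_cons.2 ⟨key_known hδ hP hord hcon r024 (Nat.le_of_ble_eq_true rfl), ?_⟩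
  refine List.forall_mem_cons.2 ⟨key_known hδ hP hord hcon r025 (Nat.le_of_ble_eq_true rfl), ?_⟩
  refine List.forall_mem_cons.2 ⟨key_known hδ hP hord hcon r026 (Nat.le_of_ble_eq_true rfl), ?_⟩
  refine List.forall_mem_cons.2 ⟨key_known hδ hP hord hcon r027 (Nat.le_of_ble_eq_true rfl), ?_⟩
  refine List.forall_mem_cons.2 ⟨key_known hδ hP hord hcon r028 (Nat.le_of_ble_eq_true rfl), ?_⟩
  refine List.forall_mem_cons.2 ⟨key_known hδ hP hord hcon r029 (Nat.le_of_ble_eq_true rfl), ?_⟩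
  refine List.forall_mem_cons.2 ⟨key_known hδ hP hord hcon r030 (Nat.le_of_ble_eq_true rfl), ?_⟩
  refine List.forall_mem_cons.2 ⟨key_known hδ hP hord hcon r031 (Nat.le_of_ble_eq_true rfl), ?_⟩
  refine List.forall_mem_cons.2 ⟨key_known hδ hP hord hcon r032 (Nat.le_of_ble_eq_true rfl), ?_⟩
  refine List.forall_mem_cons.2 ⟨key_known hδ hP hord hcon r033 (Nat.le_of_ble_eq_true rfl), ?_⟩
  refine List.forall_mem_cons.2 ⟨key_known hδ hP hord hcon r034 (Nat.le_of_ble_eq_true rfl), ?_⟩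
  refine List.forall_mem_cons.2 ⟨key_known hδ hP hord hcon r035 (Nat.le_of_ble_eq_true rfl), ?_⟩
  refine List.forall_mem_cons.2 ⟨key_known hδ hP hord hcon r036 (Nat.le_of_ble_eq_true rfl), ?_⟩
  refine List.forall_mem_cons.2 ⟨key_known hδ hP hord hcon r037 (Nat.le_of_ble_eq_true rfl), ?_⟩
  refine List.forall_mem_cons.2 ⟨key_known hδ hP hord hcon r038 (Nat.le_of_ble_eq_true rfl), ?_⟩
  refine List.forall_mem_cons.2 ⟨key_known hδ hP hord hcon r039 (Nat.le_of_ble_eq_true rfl), ?_⟩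
  refine List.forall_mem_cons.2 ⟨key_known hδ hP hord hcon r040 (Nat.le_of_ble_eq_true rfl), ?_⟩
  refine List.forall_mem_cons.2 ⟨key_known hδ hP hord hcon r041 (Nat.le_of_ble_eq_true rfl), ?_⟩
  refine List.forall_mem_cons.2 ⟨key_known hδ hP hord hcon r042 (Nat.le_of_ble_eq_true rfl), ?_⟩
  refine List.forall_mem_cons.2 ⟨key_known hδ hP hord hcon r043 (Nat.le_of_ble_eq_true rfl), ?_⟩
  refine List.forall_mem_cons.2 ⟨key_known hδ hP hord hcon r044 (Nat.le_of_ble_eq_true rfl), ?_⟩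
  refine List.forall_mem_cons.2 ⟨key_known hδ hP hord hcon r045 (Nat.le_of_ble_eq_true rfl), ?_⟩
  refine List.forall_mem_cons.2 ⟨key_known hδ hP hord hcon r046 (Nat.le_of_ble_eq_true rfl), ?_⟩
  refine List.forall_mem_cons.2 ⟨key_known hδ hP hord hcon r047 (Nat.le_of_ble_eq_true rfl), ?_⟩
  refine List.forall_mem_cons.2 ⟨key_known hδ hP hord hcon r048 (Nat.le_of_ble_eq_true rfl), ?_⟩
  refine List.forall_mem_cons.2 ⟨key_known hδ hP hord hcon r049 (Nat.le_of_ble_eq_true rfl), ?_⟩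
  refine List.forall_mem_cons.2 ⟨key_known hδ hP hord hcon r050 (Nat.le_of_ble_eq_true rfl), ?_⟩
  refine List.forall_mem_cons.2 ⟨key_known hδ hP hord hcon r051 (Nat.le_of_ble_eq_true rfl), ?_⟩
  refine List.forall_mem_cons.2 ⟨key_known hδ hP hord hcon r052 (Nat.le_of_ble_eq_true rfl), ?_⟩
  refine List.forall_mem_cons.2 ⟨key_known hδ hP hord hcon r053 (Nat.le_of_ble_eq_true rfl), ?_⟩
  refine List.forall_mem_cons.2 ⟨key_known hδ hP hord hcon r054 (Nat.le_of_ble_eq_true rfl), ?_⟩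
  refine List.forall_mem_cons.2 ⟨key_known hδ hP hord hcon r055 (Nat.le_of_ble_eq_true rfl), ?_⟩
  refine List.forall_mem_cons.2 ⟨key_known hδ hP hord hcon r056 (Nat.le_of_ble_eq_true rfl), ?_⟩
  refine List.forall_mem_cons.2 ⟨key_known hδ hP hord hcon r057 (Nat.le_of_ble_eq_true rfl), ?_⟩
  refine List.forall_mem_cons.2 ⟨key_known hδ hP hord hcon r058 (Nat.le_of_ble_eq_true rfl), ?_⟩
  refine List.forall_mem_cons.2 ⟨key_known hδ hP hord hcon r059 (Nat.le_of_ble_eq_true rfl), ?_⟩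
  refine List.forall_mem_cons.2 ⟨key_known hδ hP hord hcon r060 (Nat.le_of_ble_eq_true rfl), ?_⟩
  refine List.forall_mem_cons.2 ⟨key_known hδ hP hord hcon r061 (Nat.le_of_ble_eq_true rfl), ?_⟩
  refine List.forall_mem_cons.2 ⟨key_known hδ hP hord hcon r062 (Nat.le_of_ble_eq_true rfl), ?_⟩
  refine List.forall_mem_cons.2 ⟨key_known hδ hP hord hcon r063 (Nat.le_of_ble_eq_true rfl), ?_⟩
  refine List.forall_mem_cons.2 ⟨key_known hδ hP hord hcon r064 (Nat.le_of_ble_eq_true rfl), ?_⟩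
  refine List.forall_mem_cons.2 ⟨key_known hδ hP hord hcon r065 (Nat.le_of_ble_eq_true rfl), ?_⟩
  refine List.forall_mem_cons.2 ⟨key_known hδ hP hord hcon r066 (Nat.le_of_ble_eq_true rfl), ?_⟩
  refine List.forall_mem_cons.2 ⟨key_known hδ hP hord hcon r067 (Nat.le_of_ble_eq_true rfl), ?_⟩
  refine List.forall_mem_cons.2 ⟨key_known hδ hP hord hcon r068 (Nat.le_of_ble_eq_true rfl), ?_⟩
  refine List.forall_mem_cons.2 ⟨key_known hδ hP hord hcon r069 (Nat.le_of_ble_eq_true rfl), ?_⟩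
  refine List.forall_mem_cons.2 ⟨key_known hδ hP hord hcon r070 (Nat.le_of_ble_eq_true rfl), ?_⟩
  refine List.forall_mem_cons.2 ⟨key_known hδ hP hord hcon r071 (Nat.le_of_ble_eq_true rfl), ?_⟩
  refine List.forall_mem_cons.2 ⟨key_known hδ hP hord hcon r072 (Nat.le_of_ble_eq_true rfl), ?_⟩
  refine List.forall_mem_cons.2 ⟨key_known hδ hP hord hcon r073 (Nat.le_of_ble_eq_true rfl), ?_⟩
  refine List.forall_mem_cons.2 ⟨key_known hδ hP hord hcon r074 (Nat.le_of_ble_eq_true rfl), ?_⟩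
  refine List.forall_mem_cons.2 ⟨key_known hδ hP hord hcon r075 (Nat.le_of_ble_eq_true rfl), ?_⟩
  refine List.forall_mem_cons.2 ⟨key_known hδ hP hord hcon r076 (Nat.le_of_ble_eq_true rfl), ?_⟩
  refine List.forall_mem_cons.2 ⟨key_known hδ hP hord hcon r077 (Nat.le_of_ble_eq_true rfl), ?_⟩
  refine List.forall_mem_cons.2 ⟨key_known hδ hP hord hcon r078 (Nat.le_of_ble_eq_true rfl), ?_⟩
  refine List.forall_mem_cons.2 ⟨key_known hδ hP hord hcon r079 (Nat.le_of_ble_eq_true rfl), ?_⟩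
  refine List.forall_mem_cons.2 ⟨key_known hδ hP hord hcon r080 (Nat.le_of_ble_eq_true rfl), ?_⟩
  refine List.forall_mem_cons.2 ⟨key_known hδ hP hord hcon r081 (Nat.le_of_ble_eq_true rfl), ?_⟩
  refine List.forall_mem_cons.2 ⟨key_known hδ hP hord hcon r082 (Nat.le_of_ble_eq_true rfl), ?_⟩
  refine List.forall_mem_cons.2 ⟨key_known hδ hP hord hcon r083 (Nat.le_of_ble_eq_true rfl), ?_⟩
  refine List.forall_mem_cons.2 ⟨key_known hδ hP hord hcon r084 (Nat.le_of_ble_eq_true rfl), ?_⟩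
  refine List.forall_mem_cons.2 ⟨key_known hδ hP hord hcon r085 (Nat.le_of_ble_eq_true rfl), ?_⟩
  refine List.forall_mem_cons.2 ⟨key_known hδ hP hord hcon r086 (Nat.le_of_ble_eq_true rfl), ?_⟩
  refine List.forall_mem_cons.2 ⟨key_known hδ hP hord hcon r087 (Nat.le_of_ble_eq_true rfl), ?_⟩
  refine List.forall_mem_cons.2 ⟨key_known hδ hP hord hcon r088 (Nat.le_of_ble_eq_true rfl), ?_⟩
  refine List.forall_mem_cons.2 ⟨key_known hδ hP hord hcon r089 (Nat.le_of_ble_eq_true rfl), ?_⟩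
  refine List.forall_mem_cons.2 ⟨key_known hδ hP hord hcon r090 (Nat.le_of_ble_eq_true rfl), ?_⟩
  refine List.forall_mem_cons.2 ⟨key_known hδ hP hord hcon r091 (Nat.le_of_ble_eq_true rfl), ?_⟩
  refine List.forall_mem_cons.2 ⟨key_known hδ hP hord hcon r092 (Nat.le_of_ble_eq_true rfl), ?_⟩
  refine List.forall_mem_cons.2 ⟨key_known hδ hP hord hcon r093 (Nat.le_of_ble_eq_true rfl), ?_⟩
  refine List.forall_mem_cons.2 ⟨key_known hδ hP hord hcon r094 (Nat.le_of_ble_eq_true rfl), ?_⟩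
  refine List.forall_mem_cons.2 ⟨key_known hδ hP hord hcon r095 (Nat.le_of_ble_eq_true rfl), ?_⟩
  refine List.forall_mem_cons.2 ⟨key_known hδ hP hord hcon r096 (Nat.le_of_ble_eq_true rfl), ?_⟩
  refine List.forall_mem_cons.2 ⟨key_known hδ hP hord hcon r097 (Nat.le_of_ble_eq_true rfl), ?_⟩
  refine List.forall_mem_cons.2 ⟨key_known hδ hP hord hcon r098 (Nat.le_of_ble_eq_true rfl), ?_⟩
  refine List.forall_mem_cons.2 ⟨key_known hδ hP hord hcon r099 (Nat.le_of_ble_eq_true rfl), ?_⟩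
  refine List.forall_mem_cons.2 ⟨key_known hδ hP hord hcon r100 (Nat.le_of_ble_eq_true rfl), ?_⟩
  refine List.forall_mem_cons.2 ⟨key_known hδ hP hord hcon r101 (Nat.le_of_ble_eq_true rfl), ?_⟩
  refine List.forall_mem_cons.2 ⟨key_known hδ hP hord hcon r102 (Nat.le_of_ble_eq_true rfl), ?_⟩
  refine List.forall_mem_cons.2 ⟨key_known hδ hP hord hcon r103 (Nat.le_of_ble_eq_true rfl), ?_⟩
  refine List.forall_mem_cons.2 ⟨key_known hδ hP hord hcon r104 (Nat.le_of_ble_eq_true rfl), ?_⟩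
  refine List.forall_mem_cons.2 ⟨key_known hδ hP hord hcon r105 (Nat.le_of_ble_eq_true rfl), ?_⟩
  intro p hp
  exact absurd hp List.not_mem_nil

theorem cert_ord {δ : ℝ} (hδ : 0 ≤ δ) (hP : Poly 6 1 δ v w)
    (hord : cost v 2 univ ≤ cost v 1 univ) :
    ∃ b : Bnd 6, b.Valid ∧ ∀ x ∈ b.pieces v w, x ≤ 5 / 9 + 10 * 2 ^ 26 * δ := by
  by_contra hcon
  push Not at hcon
  exact key hδ hP hord hcon _ 0 sTop known [[]] rTop (known_sound hδ hP hord hcon)
    (by simp) [] (by simp) (by simp)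

/-- swap of `1` and `2` -/
def sw (j : Fin 3) : Fin 3 := if j = 1 then 2 else if j = 2 then 1 else 0

theorem sw_inj : ∀ i j : Fin 3, i ≠ j → sw i ≠ sw j := by decide

theorem sw_zero : ∀ r : Fin 3, sw r = 0 ↔ r = 0 := by decide

theorem cost_sw (v : Fin 3 → Fin 7 → ℝ) (j : Fin 3) (S : Finset (Fin 7)) :
    cost (fun j => v (sw j)) j S = cost v (sw j) S := rfl

theorem thn_sw (w : Fin 3 → Fin 7 → ℝ) (r : Fin 3) :
    thn (fun j => w (sw j)) r = thn w (sw r) := by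
  unfold thn
  by_cases h : r = 0
  · rw [if_pos h, if_pos ((sw_zero r).2 h)]
    rfl
  · rw [if_neg h, if_neg (by rwa [sw_zero])]

/-- swap of a bound -/
def swB : Bnd 6 → Bnd 6
  | .M p q r k Sp Sq F => .M (sw p) (sw q) (sw r) k Sp Sq F
  | .E p q r F op oq => .E (sw p) (sw q) (sw r) F op oq

theorem swB_valid {b : Bnd 6} (h : b.Valid) : (swB b).Valid := by
  cases b with
  | M p q r k Sp Sq F =>
    exact ⟨sw_inj _ _ h.1, sw_inj _ _ h.2.1, sw_inj _ _ h.2.2.1, h.2.2.2⟩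
  | E p q r F op oq =>
    exact ⟨sw_inj _ _ h.1, sw_inj _ _ h.2.1, sw_inj _ _ h.2.2.1, h.2.2.2⟩

theorem opt_sw (v w : Fin 3 → Fin 7 → ℝ) (r j : Fin 3) (F : Finset (Fin 7)) (o : Opt 6) :
    o.pieces v w (sw r) (sw j) F = o.pieces (fun j => v (sw j)) (fun j => w (sw j)) r j F := by
  have h0 : (if sw r = 0 then 0 else sw j) = sw (if r = 0 then 0 else j) := by
    by_cases h : r = 0
    · rw [if_pos ((sw_zero r).2 h), if_pos h]
      rfl
    · rw [if_neg (by rwa [sw_zero]), if_neg h]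
  cases o with
  | zero => simp only [Opt.pieces, cost_sw]
  | one k μ S => simp only [Opt.pieces, cost_sw, thn_sw, h0]
  | two k₁ S₁ k₂ S₂ => simp only [Opt.pieces, cost_sw, thn_sw]

theorem pieces_sw (v w : Fin 3 → Fin 7 → ℝ) (b : Bnd 6) :
    (swB b).pieces v w = b.pieces (fun j => v (sw j)) (fun j => w (sw j)) := by
  cases b with
  | M p q r k Sp Sq F => simp only [swB, Bnd.pieces, cost_sw, thn_sw]
  | E p q r F op oq => simp only [swB, Bnd.pieces, cost_sw, opt_sw]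

theorem poly_sw {δ : ℝ} (hP : Poly 6 1 δ v w) :
    Poly 6 1 δ (fun j => v (sw j)) (fun j => w (sw j)) where
  v_nonneg j i := hP.v_nonneg _ _
  w_eq j i h := hP.w_eq _ _ h
  w_last j := hP.w_last _
  w0 := hP.w0
  w1 := hP.w2
  w1' := hP.w2'
  w2 := hP.w1
  w2' := hP.w1'
  tot := by
    have h := hP.tot
    have e0 : cost (fun j => v (sw j)) 0 univ = cost v 0 univ := rfl
    have e1 : cost (fun j => v (sw j)) 1 univ = cost v 2 univ := rfl
    have e2 : cost (fun j => v (sw j)) 2 univ = cost v 1 univ := rfl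
    rw [e0, e1, e2]
    linarith

end Cert

/-- the certificate for `K = 6`, `lam = 1`, `θ = 5 / 9` -/
theorem stmtCert : StmtCert 6 1 (5 / 9) := by
  refine ⟨10 * 2 ^ 26, by norm_num, fun δ v w hδ hP => ?_⟩
  rcases le_total (cost v 2 univ) (cost v 1 univ) with h | h
  · exact Cert.cert_ord hδ hP h
  · obtain ⟨b, hb, hb2⟩ := Cert.cert_ord hδ (Cert.poly_sw hP) h
    refine ⟨Cert.swB b, Cert.swB_valid hb, ?_⟩
    rw [Cert.pieces_sw]
    exact hb2

end Pool.Agent.H785R2.ABC
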