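import Pool.Agent.H785R2.ABC.Defs
import Pool.Agent.H785R2.ABC.Cert.Core

/-!
# Soundness of the certificate checker, part 1: packed linear forms
-/

namespace Pool.Agent.H785R2.ABC.Cert

open Finset

/-- set of classes of a mask -/
def ms (m : ℕ) : Finset (Fin 7) := univ.filter fun i => m.testBit i

/-- index of a block -/
def jj (j : ℕ) : Fin 3 := ⟨j % 3, by omega⟩

/-- values of the variables -/
noncomputable def xv (v w : Fin 3 → Fin 7 → ℝ) (n : ℕ) : ℝ :=
  if n = 24 then 1 else if n = 25 then 0 else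
    if h : n % 8 < 7 then v (jj (n / 8)) ⟨n % 8, h⟩ else w (jj (n / 8)) 6

/-- the packed pair `z` represents a linear form with value `y`, counter `l`, coefficients `≤ m` -/
def Rel (v w : Fin 3 → Fin 7 → ℝ) (z : P2) (y : ℝ) (l : ℤ) (m : ℕ) : Prop :=
  ∃ c : ℕ → ℤ, (z.1 : ℤ) - z.2 = ∑ i ∈ range 26, c i * (2 : ℤ) ^ (64 * i) ∧
    (∀ i, |c i| ≤ m) ∧ c 25 = l ∧ ∑ i ∈ range 26, (c i : ℝ) * xv v w i = y

variable {v w : Fin 3 → Fin 7 → ℝ}

theorem Rel.add {z z' : P2} {y y' : ℝ} {l l' : ℤ} {m m' : ℕ} (h : Rel v w z y l m)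
    (h' : Rel v w z' y' l' m') : Rel v w (ad z z') (y + y') (l + l') (m + m') := by
  obtain ⟨c, h1, h2, h3, h4⟩ := h
  obtain ⟨c', h1', h2', h3', h4'⟩ := h'
  refine ⟨fun i => c i + c' i, ?_, ?_, ?_, ?_⟩
  · simp only [ad, add_mul, sum_add_distrib]
    push_cast
    linarith
  · intro i
    have := abs_add_le (c i) (c' i)
    have h5 := h2 i
    have h6 := h2' i
    push_cast
    linarith
  · simp only [h3, h3']
  · simp only [Int.cast_add, add_mul, sum_add_distrib, h4, h4']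

theorem Rel.mono {z : P2} {y : ℝ} {l : ℤ} {m m' : ℕ} (h : Rel v w z y l m) (hm : m ≤ m') :
    Rel v w z y l m' := by
  obtain ⟨c, h1, h2, h3, h4⟩ := h
  exact ⟨c, h1, fun i => (h2 i).trans (by exact_mod_cast hm), h3, h4⟩

theorem Rel.congr {z : P2} {y y' : ℝ} {l l' : ℤ} {m : ℕ} (h : Rel v w z y l m) (hy : y = y')
    (hl : l = l') : Rel v w z y' l' m := by
  subst hy hl
  exact h

theorem Rel.neg {a b : ℕ} {y : ℝ} {l : ℤ} {m : ℕ} (h : Rel v w (a, b) y l m) :
    Rel v w (b, a) (-y) (-l) m := by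
  obtain ⟨c, h1, h2, h3, h4⟩ := h
  refine ⟨fun i => - c i, ?_, ?_, ?_, ?_⟩
  · simp only [neg_mul, sum_neg_distrib] at h1 ⊢
    linarith
  · intro i
    rw [abs_neg]
    exact h2 i
  · simp only [h3]
  · simp only [Int.cast_neg, neg_mul, sum_neg_distrib, h4]

theorem Rel.smul {a b : ℕ} {y : ℝ} {l : ℤ} {m : ℕ} (k : ℕ) (h : Rel v w (a, b) y l m) :
    Rel v w (k * a, k * b) (k * y) (k * l) (k * m) := by
  obtain ⟨c, h1, h2, h3, h4⟩ := h
  refine ⟨fun i => k * c i, ?_, ?_, ?_, ?_⟩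
  · simp only at h1 ⊢
    push_cast
    rw [← mul_sub, h1, mul_sum]
    exact sum_congr rfl fun i _ => by ring
  · intro i
    rw [abs_mul]
    push_cast
    rw [abs_of_nonneg (by positivity : (0 : ℤ) ≤ k)]
    exact mul_le_mul_of_nonneg_left (h2 i) (by positivity)
  · simp only [h3]
  · rw [← h4, mul_sum]
    exact sum_congr rfl fun i _ => by push_cast; ring

theorem Rel.zero : Rel v w (0, 0) 0 0 0 :=
  ⟨fun _ => 0, by simp, by simp, rfl, by simp⟩

theorem Rel.single {n : ℕ} (hn : n < 26) :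
    Rel v w (2 ^ (64 * n), 0) (xv v w n) (if n = 25 then 1 else 0) 1 := by
  refine ⟨fun i => if i = n then 1 else 0, ?_, ?_, ?_, ?_⟩
  · simp only [ite_mul, one_mul, zero_mul, Finset.sum_ite_eq', mem_range, hn, if_true]
    simp
  · intro i
    simp only
    split_ifs <;> simp
  · simp only [eq_comm]
  · simp only [Int.cast_ite, Int.cast_one, Int.cast_zero, ite_mul, one_mul, zero_mul,
      Finset.sum_ite_eq', mem_range, hn, if_true]

theorem Rel.sum {s : Finset ℕ} {a : ℕ → ℕ} {y : ℕ → ℝ} {m : ℕ → ℕ}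
    (h : ∀ i ∈ s, Rel v w (a i, 0) (y i) 0 (m i)) :
    Rel v w (∑ i ∈ s, a i, 0) (∑ i ∈ s, y i) 0 (∑ i ∈ s, m i) := by
  classical
  induction s using Finset.induction_on with
  | empty => simpa using Rel.zero
  | insert i s hi ih =>
    rw [sum_insert hi, sum_insert hi, sum_insert hi]
    have h1 := (h i (mem_insert_self _ _)).add (ih fun j hj => h j (mem_insert_of_mem hj))
    simpa [ad] using h1

theorem costN_eq : ∀ m < 128, costN m = ∑ i ∈ range 7, (m.testBit i).toNat * 2 ^ (64 * i) := by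
  decide +kernel

theorem wtN_eq : ∀ m < 128, wtN m = ∑ i ∈ range 6, ((i + 1) * (m.testBit i).toNat) * 2 ^ (64 * i) +
    (m.testBit 6).toNat * 2 ^ (64 * 7) := by
  decide +kernel

theorem cost_ms (v : Fin 3 → Fin 7 → ℝ) (j : Fin 3) (m : ℕ) :
    cost v j (ms m) = ∑ i : Fin 7, ((m.testBit i).toNat : ℝ) * v j i := by
  unfold cost ms
  rw [sum_filter]
  refine sum_congr rfl fun i _ => ?_
  cases h : m.testBit i <;> simp

theorem xv_block (j i : ℕ) (hj : j < 3) (hi : i < 7) : xv v w (8 * j + i) = v (jj j) ⟨i, hi⟩ := by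
  unfold xv
  have h1 : (8 * j + i) % 8 = i := by omega
  have h2 : (8 * j + i) / 8 = j := by omega
  rw [if_neg (by omega), if_neg (by omega), dif_pos (by omega), h2]
  congr 1
  exact Fin.ext h1

theorem xv_tail (j : ℕ) (hj : j < 3) : xv v w (8 * j + 7) = w (jj j) 6 := by
  unfold xv
  have h1 : (8 * j + 7) % 8 = 7 := by omega
  have h2 : (8 * j + 7) / 8 = j := by omega
  rw [if_neg (by omega), if_neg (by omega), dif_neg (by omega), h2]

theorem rel_cost {c j m : ℕ} (hj : j < 3) (hm : m < 128) :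
    Rel v w (costP c j m) (c * cost v (jj j) (ms m)) 0 (c * 7) := by
  have h1 : Rel v w (∑ i ∈ range 7, (m.testBit i).toNat * 2 ^ (64 * (8 * j + i)), 0)
      (∑ i ∈ range 7, ((m.testBit i).toNat : ℝ) * xv v w (8 * j + i)) 0 (∑ i ∈ range 7, 1) := by
    refine Rel.sum fun i hi => ?_
    have hi' := mem_range.mp hi
    have h2 := (Rel.single (v := v) (w := w) (n := 8 * j + i) (by omega)).smul (m.testBit i).toNat
    rw [if_neg (by omega)] at h2
    refine (h2.congr rfl (by simp)).mono ?_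
    cases m.testBit i <;> simp
  have h3 := h1.smul c
  have e0 : ∑ i ∈ range 7, (m.testBit i).toNat * 2 ^ (64 * (8 * j + i)) =
      2 ^ (512 * j) * costN m := by
    rw [costN_eq m hm, mul_sum]
    refine sum_congr rfl fun i _ => ?_
    rw [show 64 * (8 * j + i) = 512 * j + 64 * i by ring, pow_add]
    exact Nat.mul_left_comm _ _ _
  rw [e0, mul_zero] at h3
  have e2 : ∑ i ∈ range 7, ((m.testBit i).toNat : ℝ) * xv v w (8 * j + i) =
      cost v (jj j) (ms m) := by
    rw [cost_ms, sum_range]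
    exact sum_congr rfl fun i _ => by rw [xv_block j i hj i.isLt]
  rw [e2] at h3
  exact (h3.congr rfl (by simp)).mono (by simp)

theorem rel_wt {c j m : ℕ} (hj : j < 3) (hm : m < 128)
    (hw : ∀ (j : Fin 3) (i : Fin 7), (i : ℕ) < 6 → w j i = (((i : ℕ) : ℝ) + 1) * v j i) :
    Rel v w (wtP c j m) (c * cost w (jj j) (ms m)) 0 (c * 28) := by
  have h1 : Rel v w (∑ i ∈ range 6, ((i + 1) * (m.testBit i).toNat) * 2 ^ (64 * (8 * j + i)), 0)
      (∑ i ∈ range 6, (((i + 1) * (m.testBit i).toNat : ℕ) : ℝ) * xv v w (8 * j + i)) 0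
      (∑ i ∈ range 6, (i + 1)) := by
    refine Rel.sum fun i hi => ?_
    have hi' := mem_range.mp hi
    have h2 := (Rel.single (v := v) (w := w) (n := 8 * j + i) (by omega)).smul
      ((i + 1) * (m.testBit i).toNat)
    rw [if_neg (by omega)] at h2
    refine (h2.congr rfl (by simp)).mono ?_
    cases m.testBit i <;> simp
  have h1' : Rel v w ((m.testBit 6).toNat * 2 ^ (64 * (8 * j + 7)), 0)
      (((m.testBit 6).toNat : ℝ) * xv v w (8 * j + 7)) 0 1 := by
    have h2 := (Rel.single (v := v) (w := w) (n := 8 * j + 7) (by omega)).smul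
      (m.testBit 6).toNat
    rw [if_neg (by omega)] at h2
    refine (h2.congr rfl (by simp)).mono ?_
    cases m.testBit 6 <;> simp
  have h12 := h1.add h1'
  have e0 : ∑ i ∈ range 6, ((i + 1) * (m.testBit i).toNat) * 2 ^ (64 * (8 * j + i)) =
      2 ^ (512 * j) * ∑ i ∈ range 6, ((i + 1) * (m.testBit i).toNat) * 2 ^ (64 * i) := by
    rw [mul_sum]
    refine sum_congr rfl fun i _ => ?_
    rw [show 64 * (8 * j + i) = 512 * j + 64 * i by ring, pow_add]
    exact Nat.mul_left_comm _ _ _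
  have e0' : (m.testBit 6).toNat * 2 ^ (64 * (8 * j + 7)) =
      2 ^ (512 * j) * ((m.testBit 6).toNat * 2 ^ (64 * 7)) := by
    rw [show 64 * (8 * j + 7) = 512 * j + 64 * 7 by ring, pow_add]
    exact Nat.mul_left_comm _ _ _
  have e1 : (∑ i ∈ range 6, ((i + 1) * (m.testBit i).toNat) * 2 ^ (64 * (8 * j + i)) +
      (m.testBit 6).toNat * 2 ^ (64 * (8 * j + 7))) = 2 ^ (512 * j) * wtN m := by
    rw [e0, e0', wtN_eq m hm, ← Nat.mul_add]
  have h4 : (ad (∑ i ∈ range 6, ((i + 1) * (m.testBit i).toNat) * 2 ^ (64 * (8 * j + i)), 0)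
      ((m.testBit 6).toNat * 2 ^ (64 * (8 * j + 7)), 0)) =
      (∑ i ∈ range 6, ((i + 1) * (m.testBit i).toNat) * 2 ^ (64 * (8 * j + i)) +
      (m.testBit 6).toNat * 2 ^ (64 * (8 * j + 7)), 0) := rfl
  rw [h4, e1] at h12
  have e2 : ∑ i ∈ range 6, (((i + 1) * (m.testBit i).toNat : ℕ) : ℝ) * xv v w (8 * j + i) +
      ((m.testBit 6).toNat : ℝ) * xv v w (8 * j + 7) = cost w (jj j) (ms m) := by
    rw [cost_ms, Fin.sum_univ_castSucc, sum_range, xv_tail j hj]
    have h7 : ∀ i : Fin 6, (((i + 1) * (m.testBit i).toNat : ℕ) : ℝ) * xv v w (8 * j + i) =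
        ((m.testBit (Fin.castSucc i : Fin 7)).toNat : ℝ) * w (jj j) (Fin.castSucc i) := by
      intro i
      have hi : (i : ℕ) < 6 := i.isLt
      rw [xv_block j i hj (by omega)]
      have h5 := hw (jj j) ⟨i, by omega⟩ hi
      have h6 : (Fin.castSucc i : Fin 7) = ⟨i, by omega⟩ := rfl
      rw [h6, h5]
      simp only [Nat.cast_mul, Nat.cast_add, Nat.cast_one]
      ring
    rw [sum_congr rfl fun i _ => h7 i]
    rfl
  rw [e2] at h12
  have h3 := h12.smul c
  rw [mul_zero] at h3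
  refine Rel.mono (Rel.congr h3 rfl (by simp)) ?_
  have : ∑ i ∈ range 6, (i + 1) = 21 := by decide
  rw [this]
  omega

end Pool.Agent.H785R2.ABC.Cert
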