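import Pool.Agent.H785R2.ABC.Cert.Sound1

/-!
# Soundness of the certificate checker, part 2: the pieces of the bounds
-/

namespace Pool.Agent.H785R2.ABC.Cert

open Finset

variable {v w : Fin 3 → Fin 7 → ℝ}

theorem ms_compl : ∀ m < 128, ms (127 - m) = (ms m)ᶜ := by decide +kernel

theorem ms_univ : ms 127 = univ := by decide +kernel

theorem rel_costM {c j m : ℕ} (hj : j < 3) (hm : m < 128) :
    Rel v w (costM c j m) (-(c * cost v (jj j) (ms m))) 0 (c * 7) :=
  (Rel.neg (rel_cost hj hm : Rel v w (c * (2 ^ (512 * j) * costN m), 0) _ _ _)).congr rfl (by simp)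

theorem rel_wtM {c j m : ℕ} (hj : j < 3) (hm : m < 128)
    (hw : ∀ (j : Fin 3) (i : Fin 7), (i : ℕ) < 6 → w j i = (((i : ℕ) : ℝ) + 1) * v j i) :
    Rel v w (wtM c j m) (-(c * cost w (jj j) (ms m))) 0 (c * 28) :=
  (Rel.neg (rel_wt hj hm hw : Rel v w (c * (2 ^ (512 * j) * wtN m), 0) _ _ _)).congr rfl (by simp)

theorem xv_24 : xv v w 24 = 1 := by simp [xv]

theorem xv_25 : xv v w 25 = 0 := by simp [xv]

theorem tM_eq : tM = (0, 200 * 2 ^ (64 * 24) + 2 ^ (64 * 25)) := by decide +kernel

theorem cP_eq (c : ℕ) : cP c = (c * 2 ^ (64 * 24), 0) := by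
  unfold cP
  have h : (2 ^ 1536 : ℕ) = 2 ^ (64 * 24) := by decide +kernel
  exact Prod.ext (congrArg (c * ·) h) rfl

theorem cM_eq (c : ℕ) : cM c = (0, c * 2 ^ (64 * 24)) := by
  unfold cM
  have h : (2 ^ 1536 : ℕ) = 2 ^ (64 * 24) := by decide +kernel
  exact Prod.ext rfl (congrArg (c * ·) h)

theorem rel_c24 (c : ℕ) : Rel v w (c * 2 ^ (64 * 24), 0) c 0 c := by
  have h := (Rel.single (v := v) (w := w) (n := 24) (by norm_num)).smul c
  rw [if_neg (by norm_num), xv_24, mul_zero, mul_one, mul_zero, mul_one] at h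
  exact h

theorem rel_cP (c : ℕ) : Rel v w (cP c) c 0 c := by
  rw [cP_eq]
  exact rel_c24 c

theorem rel_p25 : Rel v w (2 ^ (64 * 25), 0) 0 1 1 := by
  have h := Rel.single (v := v) (w := w) (n := 25) (by norm_num)
  rw [if_pos rfl, xv_25] at h
  exact h

theorem ad_zero (a b : ℕ) : ad (a, 0) (b, 0) = (a + b, 0) := rfl

theorem rel_cM (c : ℕ) : Rel v w (cM c) (-c) 0 c := by
  rw [cM_eq]
  exact (rel_c24 c).neg.congr rfl (by simp)

theorem rel_tM : Rel v w tM (-200) (-1) 201 := by
  have h := (rel_c24 (v := v) (w := w) 200).add (rel_p25 (v := v) (w := w))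
  rw [ad_zero] at h
  rw [tM_eq]
  exact h.neg.congr (by norm_num) (by norm_num)

theorem jj_eq_zero {r : ℕ} (hr : r < 3) : jj r = 0 ↔ r = 0 := by
  unfold jj
  rw [Fin.ext_iff]
  show r % 3 = 0 ↔ r = 0
  omega

theorem rel_thin {r : ℕ} (hr : r < 3) (c : ℕ)
    (hw : ∀ (j : Fin 3) (i : Fin 7), (i : ℕ) < 6 → w j i = (((i : ℕ) : ℝ) + 1) * v j i) :
    Rel v w (thinV r c) (-(c * thn w (jj r))) 0 (c * 29) := by
  unfold thinV thn
  rcases Nat.eq_zero_or_pos r with h | h
  · subst h
    have h1 := (rel_wt (c := c) (j := 0) (m := 127) (v := v) (w := w) (by norm_num) (by norm_num)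
      hw).add (rel_cM c)
    refine (h1.congr ?_ (by simp)).mono (by omega)
    rw [ms_univ, if_pos ((jj_eq_zero hr).2 rfl)]
    have : jj 0 = 0 := rfl
    rw [this]
    ring
  · have h2 : Nat.beq r 0 = false := by
      cases r with
      | zero => omega
      | succ n => rfl
    rw [h2, if_neg (by rw [jj_eq_zero hr]; omega)]
    exact (Rel.zero.congr (by simp) rfl).mono (by omega)

theorem div360 {k : ℕ} (h1 : 1 ≤ k) (h6 : k ≤ 6) : ((360 / k : ℕ) : ℝ) = 360 / (k : ℝ) := by
  interval_cases k <;> norm_num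

theorem div180 {k : ℕ} (h1 : 1 ≤ k) (h6 : k ≤ 6) : ((180 / k : ℕ) : ℝ) = 180 / (k : ℝ) := by
  interval_cases k <;> norm_num

theorem piecesM_sound {r p q k Sp Sq F : ℕ}
    (hw : ∀ (j : Fin 3) (i : Fin 7), (i : ℕ) < 6 → w j i = (((i : ℕ) : ℝ) + 1) * v j i)
    (hr : r < 3) (hp : p < 3) (hq : q < 3) (hk1 : 1 ≤ k) (hk6 : k ≤ 6) (hSp : Sp < 128)
    (hSq : Sq < 128) (hF : F < 128) :
    ∀ x ∈ (Bnd.M (K := 6) (jj p) (jj q) (jj r) k (ms Sp) (ms Sq) (ms F)).pieces v w,
      ∃ z ∈ piecesM r p q k Sp Sq F, Rel v w z (360 * x - 200) (-1) (2 ^ 20) := by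
  intro x hx
  have hk0 : (k : ℝ) ≠ 0 := by
    have : (0 : ℝ) < k := by exact_mod_cast hk1
    exact this.ne'
  have hkd := Nat.div_le_self 360 k
  simp only [Bnd.pieces, List.mem_cons, List.not_mem_nil, or_false] at hx
  have hc0 := (rel_tM (v := v) (w := w)).add ((rel_cost (v := v) (w := w) (c := 360) hr hF).add
    ((rel_cost (v := v) (w := w) (c := 360) (m := 127 - Sp) hp (by omega)).add
    (rel_cost (v := v) (w := w) (c := 360) (m := 127 - Sq) hq (by omega))))
  rw [ms_compl Sp hSp, ms_compl Sq hSq] at hc0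
  rcases hx with rfl | rfl
  · refine ⟨_, List.mem_cons_self, (hc0.congr ?_ (by norm_num)).mono (by norm_num)⟩
    push_cast
    ring
  · refine ⟨_, List.mem_cons_of_mem _ List.mem_cons_self, ((hc0.add
      ((rel_wt (c := 360 / k) hp hSp hw).add ((rel_wt (c := 360 / k) hq hSq hw).add
        ((rel_wtM (c := 360) hr hF hw).add (rel_thin hr 360 hw))))).congr ?_ (by norm_num)).mono
        (by omega)⟩
    rw [div360 hk1 hk6]
    push_cast
    field_simp
    ring

theorem areaV_sound {r F j d c S : ℕ}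
    (hw : ∀ (j : Fin 3) (i : Fin 7), (i : ℕ) < 6 → w j i = (((i : ℕ) : ℝ) + 1) * v j i)
    (hr : r < 3) (hj : j < 3) (hS : S < 128) (hF : F < 128) :
    Rel v w (areaV r F j d c S)
      (d * cost w (jj j) (ms S) - c * cost w (jj r) (ms F) - c * thn w (jj r)) 0
      (d * 28 + c * 57) := by
  refine (((rel_wt (c := d) hj hS hw).add ((rel_wtM (c := c) hr hF hw).add
    (rel_thin hr c hw))).congr ?_ (by norm_num)).mono (by omega)
  ring

/-- option with raw code -/
def optOf (t x S y S' : ℕ) : Opt 6 :=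
  if t = 0 then .zero else if t = 1 then
    .one (x % 6 + 1) (y % 6 + 1) (ms (Nat.land (S / 2 ^ (y % 6) * 2 ^ (y % 6)) (gm (x % 6 + 1))))
  else .two (x % 6 + 1) (ms (Nat.land S (gm (x % 6 + 1)))) (y % 6 + 1)
    (ms (Nat.land (Nat.land S' (gm (y % 6 + 1))) (127 - Nat.land S (gm (x % 6 + 1)))))

theorem good_gm : ∀ k < 7, 1 ≤ k → ∀ i ∈ ms (gm k), k = 1 ∨ ((i : ℕ) < 6 ∧ k ∣ (i : ℕ) + 1) := by
  decide +kernel

theorem mem_ms {m : ℕ} {i : Fin 7} : i ∈ ms m ↔ m.testBit i = true := by
  simp [ms]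

theorem ms_land (a b : ℕ) : ms (Nat.land a b) = ms a ∩ ms b := by
  ext i
  rw [mem_inter, mem_ms, mem_ms, mem_ms]
  have : Nat.land a b = a &&& b := rfl
  rw [this, Nat.testBit_and, Bool.and_eq_true]

theorem good_land {k : ℕ} (h1 : 1 ≤ k) (h6 : k ≤ 6) (S : ℕ) : Good 6 k (ms (Nat.land S (gm k))) := by
  intro i hi
  rw [ms_land, mem_inter] at hi
  exact good_gm k (by omega) h1 i hi.2

theorem land_lt {a b : ℕ} (h : a < 128) : Nat.land a b < 128 :=
  lt_of_le_of_lt Nat.and_le_left h

theorem optOf_valid (t x S y S' : ℕ) (hS : S < 128) : (optOf t x S y S').Valid := by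
  have hx : x % 6 < 6 := Nat.mod_lt _ (by norm_num)
  have hy : y % 6 < 6 := Nat.mod_lt _ (by norm_num)
  unfold optOf
  split_ifs
  · trivial
  · refine ⟨by omega, by omega, good_land (by omega) (by omega) _, by omega, ?_⟩
    intro i hi
    rw [ms_land, mem_inter, mem_ms, Nat.testBit_mul_two_pow] at hi
    have := hi.1
    simp only [Bool.and_eq_true, decide_eq_true_eq] at this
    omega
  · refine ⟨by omega, by omega, good_land (by omega) (by omega) _, by omega, by omega, ?_, ?_⟩
    · intro i hi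
      rw [ms_land, mem_inter] at hi
      exact good_land (by omega) (by omega) S' i hi.1
    · rw [ms_land (Nat.land S' _), ms_compl _ (land_lt hS)]
      exact (disjoint_compl_right).mono_right inter_subset_right

theorem opt_sound {r F j t x S y S' : ℕ}
    (hw : ∀ (j : Fin 3) (i : Fin 7), (i : ℕ) < 6 → w j i = (((i : ℕ) : ℝ) + 1) * v j i)
    (hr : r < 3) (hj : j < 3) (hF : F < 128) (hS : S < 128) (hS' : S' < 128) :
    ∀ a ∈ (optOf t x S y S').pieces v w (jj r) (jj j) (ms F),
      ∃ z ∈ optP r F j t x S y S', Rel v w z (180 * a) 0 (2 ^ 18) := by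
  intro a ha
  have hx : x % 6 < 6 := Nat.mod_lt _ (by norm_num)
  have hy : y % 6 < 6 := Nat.mod_lt _ (by norm_num)
  unfold optOf at ha
  unfold optP
  rcases Nat.eq_zero_or_pos t with h0 | h0
  · subst h0
    rw [if_pos rfl] at ha
    simp only [Opt.pieces, List.mem_cons, List.not_mem_nil, or_false] at ha
    subst ha
    refine ⟨_, List.mem_cons_self, ((rel_cost (c := 360) (m := 127) hj (by norm_num)).congr ?_
      rfl).mono (by norm_num)⟩
    rw [ms_univ]
    push_cast
    ring
  · have ht0 : Nat.beq t 0 = false := by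
      cases t with
      | zero => omega
      | succ n => rfl
    rw [if_neg (by omega)] at ha
    simp only [ht0, cond_false]
    by_cases h1 : t = 1
    · subst h1
      rw [if_pos rfl] at ha
      have ht1 : Nat.beq 1 1 = true := rfl
      simp only [ht1, cond_true]
      set k := x % 6 + 1
      set μ := y % 6 + 1
      have hk1 : 1 ≤ k := by omega
      have hk6 : k ≤ 6 := by omega
      have hμ1 : 1 ≤ μ := by omega
      have hμ6 : μ ≤ 6 := by omega
      set T := Nat.land (S / 2 ^ (y % 6) * 2 ^ (y % 6)) (gm k) with hT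
      have hTl : T < 128 := land_lt (lt_of_le_of_lt (Nat.div_mul_le_self _ _) hS)
      have hk0 : (k : ℝ) ≠ 0 := by
        have : (0 : ℝ) < k := by exact_mod_cast hk1
        exact this.ne'
      have hμ0 : (μ : ℝ) ≠ 0 := by
        have : (0 : ℝ) < μ := by exact_mod_cast hμ1
        exact this.ne'
      have hkd := Nat.div_le_self 360 k
      have hμd := Nat.div_le_self 180 μ
      simp only [Opt.pieces, List.mem_cons, List.not_mem_nil, or_false] at ha
      have hjr : cond (Nat.beq r 0) 0 j < 3 := by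
        cases Nat.beq r 0 <;> simp [hj]
      have hjr2 : jj (cond (Nat.beq r 0) 0 j) = if jj r = 0 then 0 else jj j := by
        rcases Nat.eq_zero_or_pos r with h | h
        · subst h
          rfl
        · have h2 : Nat.beq r 0 = false := by
            cases r with
            | zero => omega
            | succ n => rfl
          rw [h2, if_neg (by rw [jj_eq_zero hr]; omega)]
          rfl
      have hb := (rel_cost (v := v) (w := w) (c := 360) (m := 127 - T) hj (by omega)).add
        ((rel_wt (v := v) (w := w) (c := 180 / μ) (m := 127) hjr (by norm_num) hw).add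
          (rel_wtM (c := 180 / μ) hr hF hw))
      rw [ms_compl T hTl, ms_univ, hjr2] at hb
      rcases ha with rfl | rfl
      · refine ⟨_, List.mem_cons_self, (hb.congr ?_ (by norm_num)).mono (by omega)⟩
        rw [div180 hμ1 hμ6]
        push_cast
        field_simp
        ring
      · refine ⟨_, List.mem_cons_of_mem _ List.mem_cons_self, ((hb.add
          (areaV_sound (d := 360 / k) (c := 180) hw hr hj hTl hF)).congr ?_ (by norm_num)).mono
            (by omega)⟩
        rw [div180 hμ1 hμ6, div360 hk1 hk6]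
        push_cast
        field_simp
        ring
    · have ht1 : Nat.beq t 1 = false := by
        rw [Bool.eq_false_iff]
        intro h
        exact h1 (Nat.eq_of_beq_eq_true h)
      rw [if_neg h1] at ha
      simp only [ht1, cond_false]
      set k₁ := x % 6 + 1
      set k₂ := y % 6 + 1
      have hk1 : 1 ≤ k₁ := by omega
      have hk6 : k₁ ≤ 6 := by omega
      have hμ1 : 1 ≤ k₂ := by omega
      have hμ6 : k₂ ≤ 6 := by omega
      set T₁ := Nat.land S (gm k₁)
      set T₂ := Nat.land (Nat.land S' (gm k₂)) (127 - T₁)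
      have hT₁ : T₁ < 128 := land_lt hS
      have hT₂ : T₂ < 128 := land_lt (land_lt hS')
      have hk0 : (k₁ : ℝ) ≠ 0 := by
        have : (0 : ℝ) < k₁ := by exact_mod_cast hk1
        exact this.ne'
      have hμ0 : (k₂ : ℝ) ≠ 0 := by
        have : (0 : ℝ) < k₂ := by exact_mod_cast hμ1
        exact this.ne'
      have hkd := Nat.div_le_self 180 k₁
      have hμd := Nat.div_le_self 180 k₂
      simp only [Opt.pieces, List.mem_cons, List.not_mem_nil, or_false] at ha
      have hb := (rel_cost (v := v) (w := w) (c := 180) (m := 127 - T₁) hj (by omega)).add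
        (rel_cost (v := v) (w := w) (c := 180) (m := 127 - T₂) hj (by omega))
      rw [ms_compl T₁ hT₁, ms_compl T₂ hT₂] at hb
      have ha1 := areaV_sound (v := v) (d := 180 / k₁) (c := 90) hw hr hj hT₁ hF
      have ha2 := areaV_sound (v := v) (d := 180 / k₂) (c := 90) hw hr hj hT₂ hF
      rw [div180 hk1 hk6] at ha1
      rw [div180 hμ1 hμ6] at ha2
      rcases ha with rfl | rfl | rfl | rfl
      · refine ⟨_, List.mem_cons_self, (hb.congr ?_ (by norm_num)).mono (by omega)⟩
        push_cast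
        ring
      · refine ⟨_, List.mem_cons_of_mem _ List.mem_cons_self,
          ((hb.add ha1).congr ?_ (by norm_num)).mono (by omega)⟩
        push_cast
        field_simp
        ring
      · refine ⟨_, List.mem_cons_of_mem _ (List.mem_cons_of_mem _ List.mem_cons_self),
          ((hb.add ha2).congr ?_ (by norm_num)).mono (by omega)⟩
        push_cast
        field_simp
        ring
      · refine ⟨_, List.mem_cons_of_mem _ (List.mem_cons_of_mem _ (List.mem_cons_of_mem _
          List.mem_cons_self)), (((hb.add ha1).add ha2).congr ?_ (by norm_num)).mono (by omega)⟩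
        push_cast
        field_simp
        ring

theorem mem_mapC {f : P2 → P2} {l tl : List P2} {x : P2} (h : x ∈ l) : f x ∈ mapC f l tl := by
  induction l with
  | nil => simp at h
  | cons a l ih =>
    have e : mapC f (a :: l) tl = f a :: mapC f l tl := rfl
    rw [e]
    rcases List.mem_cons.mp h with h | h
    · subst h
      exact List.mem_cons_self
    · exact List.mem_cons_of_mem _ (ih h)

theorem mem_mapC_tl {f : P2 → P2} {l tl : List P2} {x : P2} (h : x ∈ tl) : x ∈ mapC f l tl := by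
  induction l with
  | nil => exact h
  | cons a l ih => exact List.mem_cons_of_mem _ ih

theorem piecesE_sound {r p q F : ℕ} {OP OQ : List P2} {op oq : Opt 6}
    (hr : r < 3) (hq : q < 3) (hF : F < 128)
    (hop : ∀ a ∈ op.pieces v w (jj r) (jj p) (ms F), ∃ z ∈ OP, Rel v w z (180 * a) 0 (2 ^ 18))
    (hoq : ∀ a ∈ oq.pieces v w (jj r) (jj q) (ms F), ∃ z ∈ OQ, Rel v w z (180 * a) 0 (2 ^ 18)) :
    ∀ x ∈ (Bnd.E (K := 6) (jj p) (jj q) (jj r) (ms F) op oq).pieces v w,
      ∃ z ∈ piecesE r p q F OP OQ, Rel v w z (360 * x - 200) (-1) (2 ^ 20) := by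
  intro x hx
  simp only [Bnd.pieces, List.mem_cons, List.mem_append, List.mem_map, List.mem_flatMap] at hx
  have hCR := (rel_tM (v := v) (w := w)).add (rel_cost (v := v) (w := w) (c := 360) hr hF)
  rcases hx with rfl | ⟨a, ha, rfl⟩ | ⟨a, ha, b, hb, rfl⟩
  · refine ⟨_, List.mem_cons_self, ((hCR.add (rel_cost (v := v) (w := w) (c := 360) (m := 127)
      hq (by norm_num))).congr ?_ (by norm_num)).mono (by norm_num)⟩
    rw [ms_univ]
    push_cast
    ring
  · obtain ⟨z, hz, hz2⟩ := hop a ha
    refine ⟨_, List.mem_cons_of_mem _ (mem_mapC hz), (((hCR.add hz2).add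
      (rel_cost (v := v) (w := w) (c := 180) (m := 127) hq (by norm_num))).congr ?_
        (by norm_num)).mono (by norm_num)⟩
    rw [ms_univ]
    push_cast
    ring
  · obtain ⟨z, hz, hz2⟩ := hop a ha
    obtain ⟨z', hz', hz2'⟩ := hoq b hb
    refine ⟨ad (ad (ad tM (costP 360 r F)) z) z', List.mem_cons_of_mem _ (mem_mapC_tl ?_),
      (((hCR.add hz2).add hz2').congr ?_ (by norm_num)).mono (by norm_num)⟩
    · clear hz2 ha hop
      induction OP with
      | nil => simp at hz
      | cons y OP ih =>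
        rcases List.mem_cons.mp hz with h | h
        · subst h
          exact mem_mapC (f := fun b => ad (ad (ad tM (costP 360 r F)) z) b) hz'
        · exact mem_mapC_tl (ih h)
    · push_cast
      ring

theorem codeM_sound
    (hw : ∀ (j : Fin 3) (i : Fin 7), (i : ℕ) < 6 → w j i = (((i : ℕ) : ℝ) + 1) * v j i) (z : ℕ) :
    ∃ b : Bnd 6, b.Valid ∧ ∀ x ∈ b.pieces v w,
      ∃ y ∈ codeM z, Rel v w y (360 * x - 200) (-1) (2 ^ 20) := by
  have h1 : z / 4 % 8 % 6 < 6 := Nat.mod_lt _ (by norm_num)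
  refine ⟨_, ?_, piecesM_sound (r := z % 4 % 3) (p := (z % 4 + 1) % 3) (q := (z % 4 + 2) % 3)
    (k := z / 4 % 8 % 6 + 1) (Sp := Nat.land (z / 32 % 128) (gm (z / 4 % 8 % 6 + 1)))
    (Sq := Nat.land (z / 4096 % 128) (gm (z / 4 % 8 % 6 + 1))) (F := z / 524288 % 128) hw
    (by omega) (by omega) (by omega) (by omega) (by omega) (land_lt (by omega))
    (land_lt (by omega)) (by omega)⟩
  refine ⟨?_, ?_, ?_, by omega, by omega, good_land (by omega) (by omega) _,
    good_land (by omega) (by omega) _⟩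
  all_goals
    unfold jj
    rw [Ne, Fin.ext_iff]
    simp only
    omega

theorem codeE_sound
    (hw : ∀ (j : Fin 3) (i : Fin 7), (i : ℕ) < 6 → w j i = (((i : ℕ) : ℝ) + 1) * v j i) (z : ℕ) :
    ∃ b : Bnd 6, b.Valid ∧ ∀ x ∈ b.pieces v w,
      ∃ y ∈ codeE z, Rel v w y (360 * x - 200) (-1) (2 ^ 20) := by
  refine ⟨_, ?_, piecesE_sound (r := z % 4 % 3) (p := (z % 4 + 1 + z / 4 % 2) % 3)
    (q := (z % 4 + 2 + 2 * (z / 4 % 2)) % 3) (F := z / 8 % 128) (by omega) (by omega) (by omega)
    (opt_sound hw (by omega) (by omega) (by omega) (by omega) (by omega))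
    (opt_sound hw (by omega) (by omega) (by omega) (by omega) (by omega))⟩
  refine ⟨?_, ?_, ?_, optOf_valid _ _ _ _ _ (by omega), optOf_valid _ _ _ _ _ (by omega)⟩
  all_goals
    unfold jj
    rw [Ne, Fin.ext_iff]
    simp only
    omega

end Pool.Agent.H785R2.ABC.Cert
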