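import Pool.Agent.H785R2.ABC.Cert.Sound2

/-!
# Soundness of the certificate checker, part 3: leaves and the recursion
-/

namespace Pool.Agent.H785R2.ABC.Cert

open Finset

variable {v w : Fin 3 → Fin 7 → ℝ}

theorem pathSum_nil (z a b : ℕ) (k : ℕ → ℕ → ℕ → Bool) : pathSum [] z a b k = k z a b := rfl

theorem pathSum_cons (x : P2) (l : List P2) (z a b : ℕ) (k : ℕ → ℕ → ℕ → Bool) :
    pathSum (x :: l) z a b k = cond (Nat.beq (z % 2) 0) (pathSum l (z / 2) a b k)
      (pathSum l (z / 134217728) (a + z / 2 % 67108864 * x.1) (b + z / 2 % 67108864 * x.2) k) := rfl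

theorem pathSum_exists {l : List P2} {z a b : ℕ} {k : ℕ → ℕ → ℕ → Bool}
    (h : pathSum l z a b k = true) : ∃ z' A B, k z' A B = true := by
  induction l generalizing z a b with
  | nil => exact ⟨z, a, b, h⟩
  | cons x l ih =>
    rw [pathSum_cons] at h
    cases hc : Nat.beq (z % 2) 0
    · rw [hc, cond_false] at h
      exact ih h
    · rw [hc, cond_true] at h
      exact ih h

theorem pathSum_sound {M : ℕ} {y0 : ℝ} {lam : ℤ} {l : List P2} {z a b : ℕ}
    {k : ℕ → ℕ → ℕ → Bool} {ya : ℝ} {la : ℤ} {ma : ℕ}
    (hl : ∀ x ∈ l, ∃ y, Rel v w x y lam M ∧ y0 ≤ y)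
    (hab : Rel v w (a, b) ya la ma)
    (h : pathSum l z a b k = true) :
    ∃ z' A B : ℕ, ∃ Y : ℝ, ∃ t : ℕ, k z' A B = true ∧ t ≤ l.length * 2 ^ 26 ∧
      Rel v w (A, B) Y (la + t * lam) (ma + l.length * (2 ^ 26 * M)) ∧ ya + t * y0 ≤ Y := by
  induction l generalizing z a b ya la ma with
  | nil => exact ⟨z, a, b, ya, 0, h, by simp, by simpa using hab, by simp⟩
  | cons x l ih =>
    have hl' : ∀ x ∈ l, ∃ y, Rel v w x y lam M ∧ y0 ≤ y := fun x hx => hl x (List.mem_cons_of_mem _ hx)
    rw [pathSum_cons] at h
    cases hc : Nat.beq (z % 2) 0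
    · rw [hc, cond_false] at h
      obtain ⟨y, hy, hy0⟩ := hl x List.mem_cons_self
      have hm : z / 2 % 67108864 ≤ 2 ^ 26 := by omega
      revert hm h
      generalize z / 2 % 67108864 = m
      intro h hm
      have h1 : Rel v w (a + m * x.1, b + m * x.2) (ya + m * y) (la + m * lam) (ma + m * M) :=
        hab.add (Rel.smul (a := x.1) (b := x.2) m hy)
      obtain ⟨z', A, B, Y, t, h2, h3, h4, h5⟩ := ih hl' h1 h
      refine ⟨z', A, B, Y, m + t, h2, ?_, ?_, ?_⟩
      · rw [List.length_cons]
        omega
      · refine (h4.congr rfl (by push_cast; ring)).mono ?_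
        rw [List.length_cons]
        have : m * M ≤ 2 ^ 26 * M := Nat.mul_le_mul_right _ hm
        rw [Nat.add_mul, one_mul]
        omega
      · refine le_trans ?_ h5
        have : (m : ℝ) * y0 ≤ (m : ℝ) * y :=
          mul_le_mul_of_nonneg_left hy0 (by positivity)
        push_cast
        linarith
    · rw [hc, cond_true] at h
      obtain ⟨z', A, B, Y, t, h2, h3, h4, h5⟩ := ih hl' hab h
      refine ⟨z', A, B, Y, t, h2, ?_, h4.mono ?_, h5⟩
      · rw [List.length_cons]
        exact h3.trans (Nat.mul_le_mul_right _ (Nat.le_succ _))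
      · rw [List.length_cons]
        exact Nat.add_le_add_left (Nat.mul_le_mul_right _ (Nat.le_succ _)) _

/-! ### the final test -/

/-- digit extraction: a natural number with small base `2 ^ 64` digits, equal to a sum of small
integer multiples of the powers -/
theorem digits {n : ℕ} : ∀ (t : ℕ) (c : ℕ → ℤ),
    (t : ℤ) = ∑ i ∈ range (n + 1), c i * (2 : ℤ) ^ (64 * i) → (∀ i, |c i| < 2 ^ 63) →
    (∀ i < n, t / 2 ^ (64 * i) % 2 ^ 64 < 2 ^ 63) →
    (∀ i < n, 0 ≤ c i) ∧ c n = (t / 2 ^ (64 * n) : ℕ) := by
  induction n with
  | zero =>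
    intro t c ht _ _
    simp only [zero_add, sum_range_one, mul_zero, pow_zero, mul_one] at ht
    simp [ht]
  | succ n ih =>
    intro t c ht hc hd
    rw [sum_range_succ'] at ht
    have e1 : ∑ i ∈ range (n + 1), c (i + 1) * (2 : ℤ) ^ (64 * (i + 1)) =
        2 ^ 64 * ∑ i ∈ range (n + 1), c (i + 1) * (2 : ℤ) ^ (64 * i) := by
      rw [mul_sum]
      refine sum_congr rfl fun i _ => ?_
      rw [show 64 * (i + 1) = 64 + 64 * i by ring, pow_add]
      ring
    rw [e1] at ht
    simp only [mul_zero, pow_zero, mul_one] at ht
    have h0 := hd 0 (by omega)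
    simp only [mul_zero, pow_zero, Nat.div_one] at h0
    have hc0 := abs_lt.mp (hc 0)
    set Q := ∑ i ∈ range (n + 1), c (i + 1) * (2 : ℤ) ^ (64 * i) with hQ
    have h1 : c 0 = ((t % 2 ^ 64 : ℕ) : ℤ) := by omega
    have h2 : ((t / 2 ^ 64 : ℕ) : ℤ) = Q := by omega
    have h3 := ih (t / 2 ^ 64) (fun i => c (i + 1)) h2 (fun i => hc (i + 1)) (by
      intro i hi
      have := hd (i + 1) (by omega)
      rw [Nat.div_div_eq_div_mul, ← pow_add]
      rwa [show 64 + 64 * i = 64 * (i + 1) by ring])
    refine ⟨?_, ?_⟩
    · intro i hi
      cases i with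
      | zero => omega
      | succ i => exact h3.1 i (by omega)
    · have := h3.2
      rw [Nat.div_div_eq_div_mul, ← pow_add] at this
      rwa [show 64 + 64 * n = 64 * (n + 1) by ring] at this

theorem xv_nonneg (hv : ∀ j i, 0 ≤ v j i) (hw6 : ∀ j, 0 ≤ w j 6) (n : ℕ) : 0 ≤ xv v w n := by
  unfold xv
  split_ifs
  · norm_num
  · norm_num
  · exact hv _ _
  · exact hw6 _

theorem leafOK_digits {t : ℕ} (h : leafOK t = true) :
    2 ^ 1600 ≤ t ∧ ∀ i < 25, t / 2 ^ (64 * i) % 2 ^ 64 < 2 ^ 63 := by
  unfold leafOK at h
  rw [Bool.and_eq_true] at h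
  obtain ⟨h1, h2⟩ := h
  refine ⟨(by decide +kernel : 2 ^ 1600 ≤ 44462416477094044620016814065517364315819234512137839319418223093753683069769152238984782576173969417485953521141049383745107056455283979316385016701612810119562585078620415976730705698345087039035930761275083827265405596065418173652685035788898113991627042329246850314029877161622487411877779578892097029690461532001915311366862468942148892205997883828265721290296220249202674740669814705818564765009960300389641843321936008416473775144511929246788246559538970957296160626364645376).trans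
    (Nat.le_of_ble_eq_true h1), ?_⟩
  have h3 := Nat.eq_of_beq_eq_true h2
  clear h1 h2
  have hm : ∀ i < 25, (410093408825820243682471112422314277430603333297482201570502425291690999953162569009279406651634712714171935173747159962171154192727336616869540971717551098300349734075435152088572096128430108377112718187752526337773991705240405696668722134648658812284966416060711179086147216635840832630402097343254318301675270241505622288705096698725295797868891547783986547596035847023355056721418766576537585315036987001780097052769926066088937108011417696599106917216389567357995966960705198406118541236799275008 : ℕ).testBit (64 * i + 63) = true := by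
    decide +kernel
  revert h3 hm
  generalize (410093408825820243682471112422314277430603333297482201570502425291690999953162569009279406651634712714171935173747159962171154192727336616869540971717551098300349734075435152088572096128430108377112718187752526337773991705240405696668722134648658812284966416060711179086147216635840832630402097343254318301675270241505622288705096698725295797868891547783986547596035847023355056721418766576537585315036987001780097052769926066088937108011417696599106917216389567357995966960705198406118541236799275008 : ℕ) = M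
  intro h3 hm i hi
  have h4 : Nat.testBit (t &&& M) (64 * i + 63) = false := by
    have : t &&& M = Nat.land t M := rfl
    rw [this, h3, Nat.zero_testBit]
  rw [Nat.testBit_and, hm i hi, Bool.and_true, Nat.testBit_eq_decide_div_mod_eq,
    decide_eq_false_iff_not, pow_add, ← Nat.div_div_eq_div_mul] at h4
  revert h4
  generalize t / 2 ^ (64 * i) = u
  intro h4
  omega

end Pool.Agent.H785R2.ABC.Cert
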