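import Pool.Agent.H785R2.ABC.Cert.Sound3

/-!
# Soundness of the certificate checker, part 4: the recursion
-/

namespace Pool.Agent.H785R2.ABC.Cert

open Finset

variable {v w : Fin 3 → Fin 7 → ℝ}

theorem leafOK_sound {A B : ℕ} {Y : ℝ} {l : ℤ} {M : ℕ} (h : leafOK (B - A) = true)
    (hR : Rel v w (A, B) Y l M) (hM : M < 2 ^ 63) (hx : ∀ n, 0 ≤ xv v w n) : l ≤ -1 ∧ Y ≤ 0 := by
  obtain ⟨c, h1, h2, h3, h4⟩ := hR
  obtain ⟨ht, hd⟩ := leafOK_digits h
  simp only at h1
  have hAB : A ≤ B := by
    by_contra hcon
    have h0 : B - A = 0 := by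
      clear ht hd h1
      omega
    rw [h0] at ht
    exact absurd ht (not_le.mpr (Nat.two_pow_pos _))
  have e1 : ((B - A : ℕ) : ℤ) = ∑ i ∈ range (25 + 1), (- c i) * (2 : ℤ) ^ (64 * i) := by
    simp only [neg_mul, sum_neg_distrib]
    rw [← h1]
    omega
  have h5 := digits (B - A) (fun i => - c i) e1 (fun i => by
    rw [abs_neg]
    refine lt_of_le_of_lt (h2 i) ?_
    exact_mod_cast hM) hd
  have h6 : 1 ≤ (B - A) / 2 ^ (64 * 25) := by
    rw [Nat.le_div_iff_mul_le (Nat.two_pow_pos _), one_mul]
    exact ht
  have h7 : (1 : ℤ) ≤ - c 25 := by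
    rw [h5.2]
    exact_mod_cast h6
  refine ⟨by omega, ?_⟩
  rw [← h4]
  refine sum_nonpos fun i hi => mul_nonpos_of_nonpos_of_nonneg ?_ (hx i)
  have hi' := mem_range.mp hi
  have : c i ≤ 0 := by
    rcases Nat.lt_or_ge i 25 with h8 | h8
    · have := h5.1 i h8
      omega
    · have : i = 25 := by omega
      subst this
      omega
  exact_mod_cast this

theorem exists_lower {M : ℕ} {c : ℝ} (l : List P2)
    (h : ∀ x ∈ l, ∃ y, Rel v w x y (-1) M ∧ c < y) :
    ∃ y0, c < y0 ∧ ∀ x ∈ l, ∃ y, Rel v w x y (-1) M ∧ y0 ≤ y := by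
  induction l with
  | nil => exact ⟨c + 1, by linarith, by simp⟩
  | cons x l ih =>
    obtain ⟨y0, h1, h2⟩ := ih fun x hx => h x (List.mem_cons_of_mem _ hx)
    obtain ⟨y, hy, hy0⟩ := h x List.mem_cons_self
    refine ⟨min y y0, lt_min hy0 h1, fun x' hx' => ?_⟩
    rcases List.mem_cons.mp hx' with rfl | hx'
    · exact ⟨y, hy, min_le_left _ _⟩
    · obtain ⟨y', h3, h4⟩ := h2 x' hx'
      exact ⟨y', h3, (min_le_right _ _).trans h4⟩

theorem leaf_sound {δ : ℝ} (hδ : 0 ≤ δ)
    (hbase : ∀ x ∈ baseL, ∃ y, Rel v w x y 0 (2 ^ 20) ∧ -(360 * δ) ≤ y)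
    (hx : ∀ n, 0 ≤ xv v w n) (path : List P2) (hlen : path.length ≤ 8192) (z : ℕ)
    (g : ℕ → Bool)
    (h : (pathSum path z 0 0 fun z a b => pathSum baseL z a b fun z a b =>
      leafOK (b - a) && g z) = true) :
    ¬ ∀ x ∈ path, ∃ y, Rel v w x y (-1) (2 ^ 20) ∧ 360 * (10 * 2 ^ 26) * δ < y := by
  intro hp
  obtain ⟨y0, hy0, hy1⟩ := exists_lower path hp
  obtain ⟨z', A, B, Y, t, h1, h2, h3, h4⟩ := pathSum_sound hy1 Rel.zero h
  obtain ⟨z'', A', B', Y', t', h1', h2', h3', h4'⟩ := pathSum_sound hbase h3 h1
  rw [Bool.and_eq_true] at h1'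
  have hb : baseL.length = 10 := rfl
  rw [hb] at h2' h3'
  have hM : 0 + path.length * (2 ^ 26 * 2 ^ 20) + 10 * (2 ^ 26 * 2 ^ 20) < 2 ^ 63 := by omega
  obtain ⟨h5, h6⟩ := leafOK_sound h1'.1 h3' hM hx
  have h7 : 1 ≤ t := by omega
  have h8 : (1 : ℝ) ≤ t := by exact_mod_cast h7
  have h9 : (t' : ℝ) ≤ 10 * 2 ^ 26 := by exact_mod_cast h2'
  have h10 : 0 ≤ y0 := le_trans (by positivity) hy0.le
  have h11 : y0 ≤ t * y0 := le_mul_of_one_le_left h10 h8
  have h12 : (t' : ℝ) * (360 * δ) ≤ 10 * 2 ^ 26 * (360 * δ) :=
    mul_le_mul_of_nonneg_right h9 (by positivity)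
  linarith

/-! ### the recursion -/

theorem mem_pushAll {path : List P2} {l : List P2} {st : List (List P2)} {p : List P2} :
    p ∈ pushAll path l st ↔ (∃ x ∈ l, x :: path = p) ∨ p ∈ st := by
  induction l with
  | nil => simp [pushAll]
  | cons x l ih =>
    have e : pushAll path (x :: l) st = (x :: path) :: pushAll path l st := rfl
    rw [e, List.mem_cons, ih, eq_comm (a := p) (b := x :: path)]
    simp only [List.mem_cons, exists_eq_or_imp]
    exact or_assoc.symm

theorem pairEq_eq {x y : P2} (h : pairEq x y = true) : x = y := by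
  unfold pairEq at h
  rw [Bool.and_eq_true] at h
  exact Prod.ext (Nat.eq_of_beq_eq_true h.1) (Nat.eq_of_beq_eq_true h.2)

theorem listEq_eq {l : List P2} : ∀ {l' : List P2}, listEq l l' = true → l = l' := by
  induction l with
  | nil =>
    intro l' h
    cases l' with
    | nil => rfl
    | cons y ys => exact absurd h (by simp [listEq])
  | cons x l ih =>
    intro l' h
    cases l' with
    | nil => exact absurd h (by simp [listEq])
    | cons y ys =>
      have e : listEq (x :: l) (y :: ys) = (pairEq x y && listEq l ys) := rfl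
      rw [e, Bool.and_eq_true] at h
      rw [pairEq_eq h.1, ih h.2]

theorem run_cons (n z : ℕ) (zs : List ℕ) (kn : List (List P2)) (path : List P2)
    (st : List (List P2)) : run (n + 1) z zs kn (path :: st) =
        cond (Nat.beq (z % 8) 3)
          (pathSum path (z / 8) 0 0 fun z a b => pathSum baseL z a b fun z a b =>
            leafOK (b - a) && run n z zs kn st)
        (cond (Nat.beq (z % 8) 1)
          (run n (z / 2 ^ 29) zs kn (pushAll path (codeM (z / 8)) st))
        (cond (Nat.beq (z % 8) 2)
          (run n (z / 2 ^ 57) zs kn (pushAll path (codeE (z / 8)) st))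
        (cond (Nat.beq (z % 8) 4)
          (List.rec (motive := fun _ => Bool) false
            (fun p ps _ => listEq path p && run n (z / 8) zs ps st) kn)
          (List.rec (motive := fun _ => Bool) false
            (fun z' zs' _ => run n z' zs' kn (path :: st)) zs)))) := rfl

theorem run_sound {Sat : P2 → Prop} {N : ℕ} (hM : ∀ z, ∃ y ∈ codeM z, Sat y)
    (hE : ∀ z, ∃ y ∈ codeE z, Sat y)
    (hleaf : ∀ path : List P2, path.length ≤ N → ∀ (z : ℕ) (g : ℕ → Bool),
      (pathSum path z 0 0 fun z a b => pathSum baseL z a b fun z a b =>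
        leafOK (b - a) && g z) = true → ¬ ∀ x ∈ path, Sat x) :
    ∀ (n z : ℕ) (zs : List ℕ) (kn st : List (List P2)), run n z zs kn st = true →
      (∀ p ∈ kn, ¬ ∀ x ∈ p, Sat x) → (∀ p ∈ st, p.length + n ≤ N) →
      ∀ p ∈ st, ¬ ∀ x ∈ p, Sat x := by
  intro n
  induction n with
  | zero =>
    intro z zs kn st h
    exact absurd h (by simp [run])
  | succ n ih =>
    intro z zs kn st h hkn hlen p hp
    cases st with
    | nil => simp at hp
    | cons path st =>
      rw [run_cons] at h
      have hlen' : ∀ p ∈ st, p.length + n ≤ N := fun p hp => by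
        have := hlen p (List.mem_cons_of_mem _ hp)
        omega
      have hpath := hlen path List.mem_cons_self
      cases h3 : Nat.beq (z % 8) 3
      · rw [h3, cond_false] at h
        cases h1 : Nat.beq (z % 8) 1
        · rw [h1, cond_false] at h
          cases h2 : Nat.beq (z % 8) 2
          · rw [h2, cond_false] at h
            cases h4 : Nat.beq (z % 8) 4
            · rw [h4, cond_false] at h
              cases zs with
              | nil => simp at h
              | cons z' zs' =>
                exact ih z' zs' kn (path :: st) h hkn (fun p hp => by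
                  have := hlen p hp
                  omega) p hp
            · rw [h4, cond_true] at h
              cases kn with
              | nil => simp at h
              | cons q ps =>
                simp only [Bool.and_eq_true] at h
                have hq := listEq_eq h.1
                rcases List.mem_cons.mp hp with hp | hp
                · subst hp
                  rw [hq]
                  exact hkn q List.mem_cons_self
                · exact ih _ zs ps st h.2 (fun p hp => hkn p (List.mem_cons_of_mem _ hp)) hlen' p hp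
          · rw [h2, cond_true] at h
            have h5 := ih _ zs kn _ h hkn (fun p hp => by
              rcases mem_pushAll.mp hp with ⟨x, hx, rfl⟩ | hp
              · rw [List.length_cons]
                omega
              · exact hlen' p hp)
            rcases List.mem_cons.mp hp with hp | hp
            · subst hp
              intro hsat
              obtain ⟨y, hy, hy2⟩ := hE (z / 8)
              refine h5 (y :: p) (mem_pushAll.mpr (Or.inl ⟨y, hy, rfl⟩)) fun x hx => ?_
              rcases List.mem_cons.mp hx with rfl | hx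
              · exact hy2
              · exact hsat x hx
            · exact h5 p (mem_pushAll.mpr (Or.inr hp))
        · rw [h1, cond_true] at h
          have h5 := ih _ zs kn _ h hkn (fun p hp => by
            rcases mem_pushAll.mp hp with ⟨x, hx, rfl⟩ | hp
            · rw [List.length_cons]
              omega
            · exact hlen' p hp)
          rcases List.mem_cons.mp hp with hp | hp
          · subst hp
            intro hsat
            obtain ⟨y, hy, hy2⟩ := hM (z / 8)
            refine h5 (y :: p) (mem_pushAll.mpr (Or.inl ⟨y, hy, rfl⟩)) fun x hx => ?_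
            rcases List.mem_cons.mp hx with rfl | hx
            · exact hy2
            · exact hsat x hx
          · exact h5 p (mem_pushAll.mpr (Or.inr hp))
      · rw [h3, cond_true] at h
        rcases List.mem_cons.mp hp with hp | hp
        · subst hp
          exact hleaf p (by omega) _ _ h
        · obtain ⟨z1, A1, B1, h5⟩ := pathSum_exists h
          obtain ⟨z2, A2, B2, h6⟩ := pathSum_exists h5
          rw [Bool.and_eq_true] at h6
          exact ih _ zs kn st h6.2 hkn hlen' p hp

end Pool.Agent.H785R2.ABC.Cert
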