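import Pool.Agent.H785R2.ABC.Cert.Sound4

/-!
# Soundness of the certificate checker, part 5: base constraints and the main lemma
-/

namespace Pool.Agent.H785R2.ABC.Cert

open Finset

variable {v w : Fin 3 → Fin 7 → ℝ}

theorem ms_64 : ms 64 = {6} := by decide +kernel

theorem cost_64 (v : Fin 3 → Fin 7 → ℝ) (j : Fin 3) : cost v j (ms 64) = v j 6 := by
  rw [ms_64, cost, sum_singleton]

theorem base_sound {δ : ℝ} (hδ : 0 ≤ δ) (hP : Poly 6 1 δ v w)
    (hord : cost v 2 univ ≤ cost v 1 univ) :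
    ∀ x ∈ baseL, ∃ y, Rel v w x y 0 (2 ^ 20) ∧ -(360 * δ) ≤ y := by
  have hw := hP.w_eq
  have hj0 : jj 0 = 0 := rfl
  have hj1 : jj 1 = 1 := rfl
  have hj2 : jj 2 = 2 := rfl
  have c0 := rel_costM (v := v) (w := w) (c := 360) (j := 0) (m := 127) (by norm_num) (by norm_num)
  have c1 := rel_costM (v := v) (w := w) (c := 360) (j := 1) (m := 127) (by norm_num) (by norm_num)
  have c2 := rel_costM (v := v) (w := w) (c := 360) (j := 2) (m := 127) (by norm_num) (by norm_num)
  have w0 := rel_wtM (v := v) (w := w) (c := 360) (j := 0) (m := 127) (by norm_num) (by norm_num) hw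
  have w1 := rel_wtM (v := v) (w := w) (c := 360) (j := 1) (m := 127) (by norm_num) (by norm_num) hw
  have w2 := rel_wtM (v := v) (w := w) (c := 360) (j := 2) (m := 127) (by norm_num) (by norm_num) hw
  have p1 := rel_wt (v := v) (w := w) (c := 360) (j := 1) (m := 127) (by norm_num) (by norm_num) hw
  have p2 := rel_wt (v := v) (w := w) (c := 360) (j := 2) (m := 127) (by norm_num) (by norm_num) hw
  have t0 := rel_costM (v := v) (w := w) (c := 2520) (j := 0) (m := 64) (by norm_num) (by norm_num)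
  have t1 := rel_costM (v := v) (w := w) (c := 2520) (j := 1) (m := 64) (by norm_num) (by norm_num)
  have t2 := rel_costM (v := v) (w := w) (c := 2520) (j := 2) (m := 64) (by norm_num) (by norm_num)
  have s0 := rel_wt (v := v) (w := w) (c := 360) (j := 0) (m := 64) (by norm_num) (by norm_num) hw
  have s1 := rel_wt (v := v) (w := w) (c := 360) (j := 1) (m := 64) (by norm_num) (by norm_num) hw
  have s2 := rel_wt (v := v) (w := w) (c := 360) (j := 2) (m := 64) (by norm_num) (by norm_num) hw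
  have q1 := rel_cost (v := v) (w := w) (c := 360) (j := 1) (m := 127) (by norm_num) (by norm_num)
  rw [ms_univ] at c0 c1 c2 w0 w1 w2 p1 p2 q1
  rw [cost_64] at t0 t1 t2 s0 s1 s2
  rw [hj0] at c0 w0 t0 s0
  rw [hj1] at c1 w1 t1 s1 p1 q1
  rw [hj2] at c2 w2 t2 s2 p2
  have hl0 := hP.w_last 0
  have hl1 := hP.w_last 1
  have hl2 := hP.w_last 2
  have htot := hP.tot
  have hw0 := hP.w0
  have hw1 := hP.w1
  have hw1' := hP.w1'
  have hw2 := hP.w2
  have hw2' := hP.w2'
  have e6 : (Fin.last 6) = 6 := rfl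
  rw [e6] at hl0 hl1 hl2
  push_cast at hl0 hl1 hl2
  intro x hx
  unfold baseL at hx
  simp only [List.mem_cons, List.not_mem_nil, or_false] at hx
  rcases hx with rfl | rfl | rfl | rfl | rfl | rfl | rfl | rfl | rfl | rfl
  · exact ⟨_, (((rel_cP 360).add (c0.add (c1.add c2))).congr rfl (by norm_num)).mono
      (by norm_num), by push_cast; linarith⟩
  · exact ⟨_, (((rel_cP 360).add w0).congr rfl (by norm_num)).mono
      (by norm_num), by push_cast; linarith⟩
  · exact ⟨_, (((rel_cP 360).add w1).congr rfl (by norm_num)).mono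
      (by norm_num), by push_cast; linarith⟩
  · exact ⟨_, (((rel_cM 360).add p1).congr rfl (by norm_num)).mono
      (by norm_num), by push_cast; linarith⟩
  · exact ⟨_, (((rel_cP 360).add w2).congr rfl (by norm_num)).mono
      (by norm_num), by push_cast; linarith⟩
  · exact ⟨_, (((rel_cM 360).add p2).congr rfl (by norm_num)).mono
      (by norm_num), by push_cast; linarith⟩
  · exact ⟨_, ((t0.add s0).congr rfl (by norm_num)).mono
      (by norm_num), by push_cast; linarith⟩
  · exact ⟨_, ((t1.add s1).congr rfl (by norm_num)).mono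
      (by norm_num), by push_cast; linarith⟩
  · exact ⟨_, ((t2.add s2).congr rfl (by norm_num)).mono
      (by norm_num), by push_cast; linarith⟩
  · exact ⟨_, ((q1.add c2).congr rfl (by norm_num)).mono
      (by norm_num), by push_cast; linarith⟩

/-- satisfied form: value `> 360 * C * δ` -/
def Sat (v w : Fin 3 → Fin 7 → ℝ) (δ : ℝ) (x : P2) : Prop :=
  ∃ y, Rel v w x y (-1) (2 ^ 20) ∧ 360 * (10 * 2 ^ 26) * δ < y

theorem key {δ : ℝ} (hδ : 0 ≤ δ) (hP : Poly 6 1 δ v w) (hord : cost v 2 univ ≤ cost v 1 univ)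
    (hcon : ∀ b : Bnd 6, b.Valid → ∃ x ∈ b.pieces v w, 5 / 9 + 10 * 2 ^ 26 * δ < x) :
    ∀ (n z : ℕ) (zs : List ℕ) (kn st : List (List P2)), run n z zs kn st = true →
      (∀ p ∈ kn, ¬ ∀ x ∈ p, Sat v w δ x) → (∀ p ∈ st, p.length + n ≤ 8192) →
      ∀ p ∈ st, ¬ ∀ x ∈ p, Sat v w δ x := by
  have hw := hP.w_eq
  have hw6 : ∀ j, 0 ≤ w j 6 := fun j => by
    have h1 := hP.w_last j
    have h2 := hP.v_nonneg j (Fin.last 6)
    have e6 : (Fin.last 6) = 6 := rfl
    rw [e6] at h1 h2
    push_cast at h1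
    linarith
  have hcode : ∀ l : List P2, (∃ b : Bnd 6, b.Valid ∧ ∀ x ∈ b.pieces v w,
      ∃ y ∈ l, Rel v w y (360 * x - 200) (-1) (2 ^ 20)) → ∃ y ∈ l, Sat v w δ y := by
    rintro l ⟨b, hb, h⟩
    obtain ⟨x, hx, hx2⟩ := hcon b hb
    obtain ⟨y, hy, hy2⟩ := h x hx
    exact ⟨y, hy, _, hy2, by linarith⟩
  exact run_sound (fun z => hcode _ (codeM_sound hw z)) (fun z => hcode _ (codeE_sound hw z))
    (fun path hlen z g h => leaf_sound hδ (base_sound hδ hP hord)
      (xv_nonneg hP.v_nonneg hw6) path hlen z g h)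

theorem length_mkPath (l : List ℕ) : (mkPath l).length = l.length := by
  induction l with
  | nil => rfl
  | cons a l ih =>
    have e : mkPath (a :: l) = nth (cond (Nat.beq (a / 32 % 8) 1) (codeM (a / 256))
      (codeE (a / 256))) (a % 32) :: mkPath l := rfl
    rw [e, List.length_cons, List.length_cons, ih]

theorem key_known {δ : ℝ} (hδ : 0 ≤ δ) (hP : Poly 6 1 δ v w)
    (hord : cost v 2 univ ≤ cost v 1 univ)
    (hcon : ∀ b : Bnd 6, b.Valid → ∃ x ∈ b.pieces v w, 5 / 9 + 10 * 2 ^ 26 * δ < x)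
    {n : ℕ} {s c : List ℕ} (h : run n 0 s [] [mkPath c] = true) (hl : c.length + n ≤ 8192) :
    ¬ ∀ x ∈ mkPath c, Sat v w δ x := by
  refine key hδ hP hord hcon n 0 s [] [mkPath c] h (by simp) ?_ _ List.mem_cons_self
  intro p hp
  rw [List.mem_singleton] at hp
  rw [hp, length_mkPath]
  exact hl

end Pool.Agent.H785R2.ABC.Cert
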